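import Pool.Agent.N969.BJ15.Pf

/-!
# BILJ15: the theorem
-/

set_option autoImplicit false

namespace Pool.Agent.N969.BJ15

open Finset
open Pool.Agent.N969.P15 (V3 ip vec rr rr0 cc cp cp3 loc loc3 Cls0)
open Pool.Agent.N973.P15 (lam)
open Pool.Agent.N969.RQ (Fd Un sgd R15 R15r o5 s5 S_BILJ15c)

theorem aux_of {l : ℕ} (hl : l.Prime) (hc : Cls0 l) : Aux l where
  prime := hl
  four := by have := hc.2; omega
  three := by have := hc.2; omega
  five := by have := hc.2; omega

theorem mod5_of {D : ℕ} (h : jacobiSym D 5 = 1) : D % 5 = 1 ∨ D % 5 = 4 := by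
  have h1 : jacobiSym D 5 = jacobiSym ((D % 5 : ℕ) : ℤ) 5 := by
    apply jacobiSym.mod_left'
    push_cast
    simp
  rw [h1] at h
  have h5 : D % 5 < 5 := Nat.mod_lt _ (by norm_num)
  interval_cases h' : D % 5
  · norm_num at h
  · left; rfl
  · norm_num at h
  · norm_num at h
  · right; rfl

theorem mod3_of {D : ℕ} (h : jacobiSym D 3 = 1) : D % 3 = 1 := by
  have h1 : jacobiSym D 3 = jacobiSym ((D % 3 : ℕ) : ℤ) 3 := by
    apply jacobiSym.mod_left'
    push_cast
    simp
  rw [h1] at h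
  have h5 : D % 3 < 3 := Nat.mod_lt _ (by norm_num)
  interval_cases h' : D % 3
  · norm_num at h
  · rfl
  · norm_num at h

theorem fd9 {D : ℕ} (h : Fd D) (h3 : 3 ∣ D) : ¬ 9 ∣ D := by
  rintro h9
  rcases h.2 with ⟨hs, -⟩ | ⟨M, rfl, hs, -⟩
  · have h1 : 3 * 3 ∣ D := by simpa using h9
    have := hs 3 h1
    exact absurd (Nat.isUnit_iff.1 this) (by norm_num)
  · have h1 : 3 * 3 ∣ M := by
      have h2 : 9 ∣ M * 4 := by rwa [mul_comm]
      have h4 : Nat.Coprime 9 4 := by norm_num
      exact h4.dvd_of_dvd_mul_right h2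
    have := hs 3 h1
    exact absurd (Nat.isUnit_iff.1 this) (by norm_num)

theorem t_BILJ15c : S_BILJ15c := by
  intro l hl hc
  have h := aux_of hl hc
  -- the global sign
  obtain ⟨η, hη, hall⟩ : ∃ η : ℤ, η * η = 1 ∧ ∀ v ∈ vec (l : ℕ), xx l v = η := by
    by_cases hne : (vec ((l : ℕ) : ℤ)).Nonempty
    · obtain ⟨v0, hv0⟩ := hne
      refine ⟨xx l v0, pf h hv0 hv0, fun v hv => ?_⟩
      have h1 := pf h hv hv0
      have h2 := pf h hv0 hv0
      calc xx l v = xx l v * (xx l v0 * xx l v0) := by rw [h2, mul_one]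
        _ = (xx l v * xx l v0) * xx l v0 := by ring
        _ = _ := by rw [h1, one_mul]
    · refine ⟨1, by norm_num, fun v hv => absurd ⟨v, hv⟩ hne⟩
  refine ⟨fun n => η * Zz l n, fun n => η * Rr l n, ?_, ?_, ?_, ?_⟩
  · -- `Z 1 = cc l`
    show η * Zz l 1 = cc l
    have h1 : Rr l 1 = η * rr l := by
      unfold Rr rr
      rw [one_mul, sum_congr rfl hall, sum_const, nsmul_eq_mul]
      ring
    have h2 : Xi l 0 1 = η * rr0 l := by
      unfold Xi rr0
      rw [one_mul, card_filter]
      push_cast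
      rw [mul_sum]
      refine sum_congr rfl fun v hv => ?_
      rw [hall v hv]
      show (if (3 : ℤ) ∣ v 1 + v 2 then η else 0) = η * if (3 : ℤ) ∣ v 1 + v 2 then 1 else 0
      split_ifs <;> ring
    have h3 : cf 1 = 2 := by unfold cf; rw [if_neg (by norm_num)]
    have h4 : cc l = rr l - 2 * rr0 l := by
      unfold cc
      rw [if_neg]
      have := h.three
      omega
    unfold Zz
    rw [h1, h2, h3, h4]
    linear_combination (rr l - 2 * rr0 l) * hη
  · show η * Rr l 1 = rr l
    have h1 : Rr l 1 = η * rr l := by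
      unfold Rr rr
      rw [one_mul, sum_congr rfl hall, sum_const, nsmul_eq_mul]
      ring
    rw [h1]
    linear_combination (rr l : ℤ) * hη
  · intro D d hR hlD hd hs hj
    have hfd : Fd D := by
      rcases hR with hR | hR
      · exact hR.1
      · exact hR.1
    have hj5 : jacobiSym D 5 = 1 := by
      rcases hR with hR | hR
      · exact hR.2.2
      · exact hR.2.2
    have hp : d * (D / d) = D := Nat.mul_div_cancel' hd.1
    have hj' : jacobiSym (D / d : ℕ) 5 = 1 := by
      rw [← hp] at hj5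
      push_cast at hj5
      rw [jacobiSym.mul_left, hj, one_mul] at hj5
      exact_mod_cast hj5
    have H : HH D d l := ⟨h, hfd, hlD, hd, hs, mod5_of hj, mod5_of hj'⟩
    refine ⟨?_, ?_, ?_⟩
    · rw [H.clause1]
      linear_combination (-(s5 d (D / d) * (Rr l d * Rr l (D / d)))) * hη
    · intro hR15 hd3
      have hd3' := mod3_of hd3
      have he3 : D / d % 3 = 1 := by
        have h1 := hR15.2.1
        rw [← hp, Nat.mul_mod, hd3'] at h1
        omega
      rw [H.clause2 hd3' he3]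
      linear_combination (-(s5 d (D / d) * (3 * (Rr l d * Rr l (D / d)) +
        Zz l d * Zz l (D / d)))) * hη
    · intro hR15 hd3
      have h3 := hR15.2.1
      rw [H.clause3 h3 (fd9 hfd h3) (hd3.imp mod3_of mod3_of)]
      linear_combination (-(s5 d (D / d) * (3 * (Rr l d * Rr l (D / d)) +
        Zz l d * Zz l (D / d)))) * hη
  · intro A hlA
    refine ⟨fun hR => ?_, fun hR => ?_⟩
    · rw [same15 h hlA hR.1 (mod5_of hR.2.2) hR.2.1]
      linear_combination (-(3 * Rr l A ^ 2 + Zz l A ^ 2)) * hη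
    · rw [same15r h hlA hR.1 (mod5_of hR.2.2) hR.2.1 (fd9 hR.1 hR.2.1)]
      linear_combination (-(9 * Rr l A ^ 2 - Zz l A ^ 2)) * hη

end Pool.Agent.N969.BJ15
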