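import Pool.Agent.N969.BJ15.Orth
import Pool.Agent.N970.RQ.Bil7b

/-!
# BILJ15: the sums over the inner products and the sums over the pairs of vectors
-/

set_option autoImplicit false

namespace Pool.Agent.N969.BJ15

open Finset
open Pool.Agent.N969.P15 (V3 ip vec rr rr0 cc cp cp3 loc loc3)
open Pool.Agent.N970.Sgn
open Pool.Agent.N970.RQ (nn_facts' Un_ndvd sj_neg ST_odd)
open Pool.Agent.N844.P17G (Iso sig rel)
open Pool.Agent.N973.P15 (lam mu uu g3 s2 mem_vec ip_g3 ip_s2 ip_neg cast3 lam_cast cauchy)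
open Pool.Agent.N969.RQ (Fd Un sgd sj o5 s5 nn)

/-- the hypotheses -/
structure HH (D d l : ℕ) : Prop where
  aux : Aux l
  fd : Fd D
  lD : ¬ l ∣ D
  un : Un D d
  sg : sgd D d = 1
  d5 : d % 5 = 1 ∨ d % 5 = 4
  e5 : D / d % 5 = 1 ∨ D / d % 5 = 4

theorem d20 (v w : V3) : (20 : ℤ) ∣ ip v v * ip w w - ip v w ^ 2 := by
  refine ⟨2 * (v 1 * w 2 - v 2 * w 1) ^ 2 + (v 2 * w 0 - v 0 * w 2) ^ 2 +
    (v 0 * w 1 - v 1 * w 0) ^ 2 + (v 1 * w 2 - v 2 * w 1) * (v 2 * w 0 - v 0 * w 2) +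
    (v 1 * w 2 - v 2 * w 1) * (v 0 * w 1 - v 1 * w 0) +
    (v 2 * w 0 - v 0 * w 2) * (v 0 * w 1 - v 1 * w 0), ?_⟩
  unfold ip
  ring

theorem cp_neg (a b c : ℤ) : cp a (-b) c = cp a b c := Pool.Agent.N218.RQ.cp15_neg a b c

theorem vec_neg {n : ℤ} {v : V3} (h : v ∈ vec n) : -v ∈ vec n := by
  rw [mem_vec] at h ⊢
  rw [ip_neg, h]

theorem ip_negl (v w : V3) : ip (-v) w = - ip v w := by
  unfold ip
  simp only [Pi.neg_apply]
  ring

theorem cp3_neg (a b c : ℤ) : cp3 a (-b) c = cp3 a b c := by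
  unfold cp3
  refine card_nbij' (fun q => (-q.1, q.2)) (fun q => (-q.1, q.2)) ?_ ?_ ?_ ?_
  · rintro ⟨v, w⟩ hq
    rw [mem_coe, mem_filter, mem_product] at hq ⊢
    refine ⟨⟨vec_neg hq.1.1, hq.1.2⟩, ?_, fun i => ?_⟩
    · show ip (-v) w = b
      rw [ip_negl, hq.2.1, neg_neg]
    · have := hq.2.2 i
      show (3 : ℤ) ∣ (-v) i + b * w i
      rw [Pi.neg_apply]
      have e : -v i + b * w i = -(v i + -b * w i) := by ring
      rw [e, dvd_neg]
      exact this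
  · rintro ⟨v, w⟩ hq
    rw [mem_coe, mem_filter, mem_product] at hq ⊢
    refine ⟨⟨vec_neg hq.1.1, hq.1.2⟩, ?_, fun i => ?_⟩
    · show ip (-v) w = -b
      rw [ip_negl, hq.2.1]
    · have := hq.2.2 i
      show (3 : ℤ) ∣ (-v) i + -b * w i
      rw [Pi.neg_apply]
      have e : -v i + -b * w i = -(v i + b * w i) := by ring
      rw [e, dvd_neg]
      exact this
  · rintro ⟨v, w⟩ _
    simp
  · rintro ⟨v, w⟩ _
    simp

namespace HH

variable {D d l : ℕ} (h : HH D d l)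
include h

theorem prod : d * (D / d) = D := Nat.mul_div_cancel' h.un.1

theorem prodl : ((d * l : ℕ) : ℤ) * (D / d * l : ℕ) = (D * l ^ 2 : ℕ) := by
  have : (d * l) * (D / d * l) = D * l ^ 2 := by
    calc (d * l) * (D / d * l) = (d * (D / d)) * l ^ 2 := by ring
      _ = _ := by rw [h.prod]
  rw [← this]
  push_cast
  ring

theorem ld : ¬ l ∣ d := (Un_ndvd h.un h.lD).1

theorem le : ¬ l ∣ D / d := (Un_ndvd h.un h.lD).2

theorem l5 : ¬ 5 ∣ l := by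
  have := h.aux.five
  omega

theorem nd5 : ¬ 5 ∣ d * l := fun hd => by
  rcases (Nat.Prime.dvd_mul Nat.prime_five).1 hd with h1 | h1
  · have := h.d5
    omega
  · exact h.l5 h1

theorem ne5 : ¬ 5 ∣ D / d * l := fun hd => by
  rcases (Nat.Prime.dvd_mul Nat.prime_five).1 hd with h1 | h1
  · have := h.e5
    omega
  · exact h.l5 h1

/-- Cauchy's inequality is strict -/
theorem strict {v w : V3} (hv : v ∈ vec (d * l : ℕ)) (hw : w ∈ vec (D / d * l : ℕ)) :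
    ip v w ^ 2 < (D * l ^ 2 : ℕ) ∧ ip v w ∈ Ioo (-((D * l : ℕ) : ℤ)) (D * l : ℕ) := by
  have hl0 : (0 : ℤ) < l := by exact_mod_cast h.aux.prime.pos
  have hD1 : (1 : ℤ) < D := by exact_mod_cast h.fd.1
  have g2 := cauchy v w
  rw [(mem_vec _ _).1 hv, (mem_vec _ _).1 hw, h.prodl] at g2
  have g1 : ip v w ^ 2 < (D * l ^ 2 : ℕ) := by
    rcases lt_or_eq_of_le g2 with g3 | g3
    · exact g3
    · exfalso
      apply Pool.Agent.N975.RQ.fd_nsq h.fd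
      push_cast at g3
      have hd : (l : ℤ) ∣ ip v w := by
        have : (l : ℤ) ^ 2 ∣ ip v w ^ 2 := ⟨D, by rw [g3]; ring⟩
        exact (Int.pow_dvd_pow_iff two_ne_zero).1 this
      obtain ⟨k, hk⟩ := hd
      refine ⟨k, ?_⟩
      rw [hk] at g3
      apply mul_left_cancel₀ (pow_ne_zero 2 hl0.ne')
      linear_combination -g3
  refine ⟨g1, ?_⟩
  rw [mem_Ioo]
  have g4 : |ip v w| < (D * l : ℕ) := by
    apply abs_lt_of_sq_lt_sq _ (by positivity)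
    refine lt_of_lt_of_le g1 ?_
    push_cast
    nlinarith [pow_pos hl0 2]
  exact abs_lt.1 g4

/-- the product of the weights -/
theorem xx_mul {v w : V3} (hv : v ∈ vec (d * l : ℕ)) (hw : w ∈ vec (D / d * l : ℕ)) :
    xx l v * xx l w = s5 d (D / d) * (o5 (ip v w * l ^ 3) * (psi ip l v * psi ip l w)) := by
  have := ori_mul h.aux.five h.d5 h.e5 ((mem_vec _ _).1 hv) ((mem_vec _ _).1 hw)
  unfold xx
  linear_combination (psi ip l v * psi ip l w) * this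

omit h in
theorem s5_sq : s5 d (D / d) * s5 d (D / d) = 1 := by
  unfold s5
  split_ifs <;> norm_num

/-- the main conversion -/
theorem conv (N : ℕ) (G : V3 → V3 → ℤ) (c : ℤ → ℤ)
    (hc : ∀ t : ℤ, ((4 * N : ℕ) : ℤ) ∣ (D * l ^ 2 : ℕ) - t ^ 2 →
      ∑ q ∈ (vec ((d * l : ℕ) : ℤ) ×ˢ vec ((D / d * l : ℕ) : ℤ)).filter
        (fun q => ip q.1 q.2 = t), G q.1 q.2 = c t)
    (hcn : ∀ t, c (-t) = c t)
    (hG : ∀ v ∈ vec (d * l : ℕ), ∀ w ∈ vec (D / d * l : ℕ),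
      ¬ ((4 * N : ℕ) : ℤ) ∣ (D * l ^ 2 : ℕ) - ip v w ^ 2 → G v w = 0)
    (hb : jacobiSym D l = -1 → ∀ s : ℤ, (l * s) ^ 2 < (D * l ^ 2 : ℕ) →
      ((4 * N : ℕ) : ℤ) ∣ (D * l ^ 2 : ℕ) - (l * s) ^ 2 →
      ∑ q ∈ (vec ((d * l : ℕ) : ℤ) ×ˢ vec ((D / d * l : ℕ) : ℤ)).filter
        (fun q => ip q.1 q.2 = l * s), psi ip l q.1 * psi ip l q.2 * G q.1 q.2 = 0) :
    Pool.Agent.N969.RQ.ST N D l (fun t _ => o5 (t * l ^ 3) * sj D d l t * c t) =
      s5 d (D / d) * ∑ v ∈ vec (d * l : ℕ), ∑ w ∈ vec (D / d * l : ℕ),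
        xx l v * xx l w * G v w := by
  have : Fact l.Prime := ⟨h.aux.prime⟩
  set s : Finset ℤ := (Ioo (-((D * l : ℕ) : ℤ)) (D * l : ℕ)).filter (fun t : ℤ =>
    t ^ 2 < (D * l ^ 2 : ℕ) ∧ ((4 * N : ℕ) : ℤ) ∣ (D * l ^ 2 : ℕ) - t ^ 2) with hs
  -- the sum over the pairs as a sum over `t`
  have e1 : s5 d (D / d) * ∑ v ∈ vec (d * l : ℕ), ∑ w ∈ vec (D / d * l : ℕ),
        xx l v * xx l w * G v w =
      ∑ t ∈ s, o5 (t * l ^ 3) *
        ∑ q ∈ (vec ((d * l : ℕ) : ℤ) ×ˢ vec ((D / d * l : ℕ) : ℤ)).filter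
          (fun q => ip q.1 q.2 = t), psi ip l q.1 * psi ip l q.2 * G q.1 q.2 := by
    have e2 : s5 d (D / d) * ∑ v ∈ vec (d * l : ℕ), ∑ w ∈ vec (D / d * l : ℕ),
        xx l v * xx l w * G v w =
        ∑ q ∈ vec ((d * l : ℕ) : ℤ) ×ˢ vec ((D / d * l : ℕ) : ℤ),
          o5 (ip q.1 q.2 * l ^ 3) * (psi ip l q.1 * psi ip l q.2 * G q.1 q.2) := by
      rw [sum_product, mul_sum]
      refine sum_congr rfl fun v hv => ?_
      rw [mul_sum]
      refine sum_congr rfl fun w hw => ?_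
      rw [h.xx_mul hv hw]
      linear_combination (o5 (ip v w * l ^ 3) * (psi ip l v * psi ip l w) * G v w) * (s5_sq (D := D) (d := d))
    rw [e2]
    have e3 : ∑ q ∈ vec ((d * l : ℕ) : ℤ) ×ˢ vec ((D / d * l : ℕ) : ℤ),
          o5 (ip q.1 q.2 * l ^ 3) * (psi ip l q.1 * psi ip l q.2 * G q.1 q.2) =
        ∑ q ∈ (vec ((d * l : ℕ) : ℤ) ×ˢ vec ((D / d * l : ℕ) : ℤ)).filter
          (fun q => ip q.1 q.2 ∈ s),
          o5 (ip q.1 q.2 * l ^ 3) * (psi ip l q.1 * psi ip l q.2 * G q.1 q.2) := by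
      symm
      apply sum_subset (filter_subset _ _)
      rintro ⟨v, w⟩ hq hq'
      rw [mem_product] at hq
      rw [mem_filter, mem_product] at hq'
      obtain ⟨g1, g2⟩ := h.strict hq.1 hq.2
      have : G v w = 0 := by
        apply hG v hq.1 w hq.2
        intro h4
        refine hq' ⟨hq, ?_⟩
        rw [hs, mem_filter]
        exact ⟨g2, g1, h4⟩
      show o5 (ip v w * l ^ 3) * (psi ip l v * psi ip l w * G v w) = 0
      rw [this]
      ring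
    rw [e3, ← sum_fiberwise_of_maps_to (t := s) (g := fun q : V3 × V3 => ip q.1 q.2)
      (fun q hq => (mem_filter.1 hq).2)]
    refine sum_congr rfl fun t ht => ?_
    rw [mul_sum, filter_filter]
    have e4 : (vec ((d * l : ℕ) : ℤ) ×ˢ vec ((D / d * l : ℕ) : ℤ)).filter
        (fun q => ip q.1 q.2 ∈ s ∧ ip q.1 q.2 = t) =
        (vec ((d * l : ℕ) : ℤ) ×ˢ vec ((D / d * l : ℕ) : ℤ)).filter
          (fun q => ip q.1 q.2 = t) := by
      refine filter_congr fun q _ => ⟨fun h => h.2, fun h => ⟨by rw [h]; exact ht, h⟩⟩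
    rw [e4]
    refine sum_congr rfl fun q hq => ?_
    rw [(mem_filter.1 hq).2]
  rw [e1]
  have hjpm : jacobiSym D l = 1 ∨ jacobiSym D l = -1 := by
    rcases jacobiSym.trichotomy D l with h1 | h1 | h1
    · exfalso
      have : NeZero l := ⟨h.aux.prime.ne_zero⟩
      rw [jacobiSym.eq_zero_iff_not_coprime, Int.gcd_natCast_natCast] at h1
      exact h1 ((Nat.Prime.coprime_iff_not_dvd h.aux.prime).2 h.lD).symm
    · exact Or.inl h1
    · exact Or.inr h1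
  have key : Pool.Agent.N969.RQ.ST N D l (fun t _ => (fun t => o5 (t * l ^ 3) *
      (if (l : ℤ) ∣ t ∧ jacobiSym D l = -1 then sj D d l t * c t else 0)) t) = 0 := by
    apply ST_odd
    intro t
    have e5 : o5 (-t * l ^ 3) = - o5 (t * l ^ 3) := by
      rw [neg_mul, Pool.Agent.N218.RQ.o5_neg]
    show o5 (-t * l ^ 3) * (if (l : ℤ) ∣ -t ∧ jacobiSym D l = -1 then sj D d l (-t) * c (-t)
      else 0) = _
    rw [e5]
    by_cases hb : (l : ℤ) ∣ t ∧ jacobiSym D l = -1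
    · rw [if_pos hb, if_pos ⟨dvd_neg.2 hb.1, hb.2⟩, sj_neg h.un h.aux.prime h.aux.four hb.1 hb.2,
        hcn]
      ring
    · rw [if_neg hb, if_neg (fun h' => hb ⟨dvd_neg.1 h'.1, h'.2⟩)]
      ring
  unfold Pool.Agent.N969.RQ.ST at key ⊢
  rw [← hs] at key ⊢
  have e5 : ∀ t ∈ s, o5 (t * l ^ 3) * sj D d l t * c t =
      o5 (t * l ^ 3) * ∑ q ∈ (vec ((d * l : ℕ) : ℤ) ×ˢ vec ((D / d * l : ℕ) : ℤ)).filter
          (fun q => ip q.1 q.2 = t), psi ip l q.1 * psi ip l q.2 * G q.1 q.2 +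
      o5 (t * l ^ 3) * (if (l : ℤ) ∣ t ∧ jacobiSym D l = -1 then sj D d l t * c t else 0) := by
    intro t ht
    rw [hs, mem_filter] at ht
    by_cases hbad : (l : ℤ) ∣ t ∧ jacobiSym D l = -1
    · rw [if_pos hbad]
      obtain ⟨r, rfl⟩ := hbad.1
      rw [hb hbad.2 r ht.2.1 ht.2.2]
      ring
    · rw [if_neg hbad]
      have e6 : ∑ q ∈ (vec ((d * l : ℕ) : ℤ) ×ˢ vec ((D / d * l : ℕ) : ℤ)).filter
          (fun q => ip q.1 q.2 = t), psi ip l q.1 * psi ip l q.2 * G q.1 q.2 =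
          sj D d l t * c t := by
        rw [← hc t ht.2.2, mul_sum]
        refine sum_congr rfl ?_
        rintro ⟨v, w⟩ hq
        rw [mem_filter, mem_product, mem_vec, mem_vec] at hq
        rw [psi_sj frm h.aux.ne2 h.aux.ndvd10 h.un h.lD hq.1.1 hq.1.2 hq.2 (by
          by_cases hlt : (l : ℤ) ∣ t
          · right
            rcases hjpm with h1 | h1
            · exact h1
            · exact absurd ⟨hlt, h1⟩ hbad
          · exact Or.inl hlt)]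
      rw [e6]
      ring
  have e7 : ∑ t ∈ s, o5 (t * l ^ 3) * sj D d l t * c t =
      ∑ t ∈ s, (o5 (t * l ^ 3) *
        ∑ q ∈ (vec ((d * l : ℕ) : ℤ) ×ˢ vec ((D / d * l : ℕ) : ℤ)).filter
          (fun q => ip q.1 q.2 = t), psi ip l q.1 * psi ip l q.2 * G q.1 q.2 +
      o5 (t * l ^ 3) * (if (l : ℤ) ∣ t ∧ jacobiSym D l = -1 then sj D d l t * c t else 0)) :=
    sum_congr rfl e5
  rw [sum_add_distrib] at e7
  rw [key, add_zero] at e7
  exact e7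

/-- the determinant of the pairs with inner product `l s` -/
theorem det {s : ℤ} (hs : (l * s) ^ 2 < (D * l ^ 2 : ℕ)) :
    ∃ m : ℕ, 0 < m ∧ (m : ℤ) = D - s ^ 2 ∧
      ((D * l ^ 2 : ℕ) : ℤ) - (l * s) ^ 2 = l ^ 2 * (m : ℤ) := by
  have hl0 : (0 : ℤ) < l := by exact_mod_cast h.aux.prime.pos
  have e1 : ((D * l ^ 2 : ℕ) : ℤ) - (l * s) ^ 2 = l ^ 2 * (D - s ^ 2) := by push_cast; ring
  have hm0 : (0 : ℤ) < D - s ^ 2 := by
    have h1 : 0 < (l : ℤ) ^ 2 * (D - s ^ 2) := by rw [← e1]; linarith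
    exact (pos_iff_pos_of_mul_pos h1).1 (by positivity)
  obtain ⟨m, hm⟩ := Int.eq_ofNat_of_zero_le hm0.le
  have hm0' : 0 < m := by rw [hm] at hm0; exact_mod_cast hm0
  exact ⟨m, hm0', hm.symm, by rw [e1, hm]⟩

omit h in
/-- the swap of the two vectors -/
theorem swap {n1 n2 : ℕ} {t : ℤ} {G : V3 → V3 → ℤ} (hG : ∀ v w, G v w = G w v) :
    ∑ q ∈ (vec (n1 : ℤ) ×ˢ vec (n2 : ℤ)).filter (fun q => ip q.1 q.2 = t),
      psi ip l q.1 * psi ip l q.2 * G q.1 q.2 =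
    ∑ q ∈ (vec (n2 : ℤ) ×ˢ vec (n1 : ℤ)).filter (fun q => ip q.1 q.2 = t),
      psi ip l q.1 * psi ip l q.2 * G q.1 q.2 := by
  refine sum_nbij' Prod.swap Prod.swap ?_ ?_ (fun _ _ => rfl) (fun _ _ => rfl) ?_
  · rintro ⟨v, w⟩ h
    rw [mem_filter, mem_product] at h ⊢
    exact ⟨⟨h.1.2, h.1.1⟩, by rw [← h.2]; exact ip_symm _ _⟩
  · rintro ⟨v, w⟩ h
    rw [mem_filter, mem_product] at h ⊢
    exact ⟨⟨h.1.2, h.1.1⟩, by rw [← h.2]; exact ip_symm _ _⟩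
  · rintro ⟨v, w⟩ _
    show psi ip l v * psi ip l w * G v w = psi ip l w * psi ip l v * G w v
    rw [hG]
    ring

/-- the balanced sums, `G = 1` -/
theorem bad1 (hDl : jacobiSym D l = -1) {s : ℤ} (hs : (l * s) ^ 2 < (D * l ^ 2 : ℕ)) :
    ∑ q ∈ (vec ((d * l : ℕ) : ℤ) ×ˢ vec ((D / d * l : ℕ) : ℤ)).filter
      (fun q => ip q.1 q.2 = l * s), psi ip l q.1 * psi ip l q.2 * (fun _ _ => 1 : V3 → V3 → ℤ)
        q.1 q.2 = 0 := by
  have : Fact l.Prime := ⟨h.aux.prime⟩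
  obtain ⟨m, hm0, hm, -⟩ := h.det hs
  obtain ⟨f1, f2, -⟩ := nn_facts' h.fd h.un h.sg h.aux.prime h.aux.four h.lD
  unfold nn at f1 f2
  by_cases h2 : 2 ∣ d
  · rw [if_pos h2] at f1 f2
    refine orth h.aux.ne2 h.aux.ndvd10 h.ld h.le (X := 6 * loc (D / d * l) m)
      (by rw [h.prod]; exact hDl) (fun _ _ => 1) fun c hr => ?_
    exact NN1 hr f1 f2 h.ne5 hm0 (by rw [hm, ← Int.natCast_mul, h.prod])
  · rw [if_neg h2] at f1 f2
    rw [swap (G := fun _ _ => 1) fun _ _ => rfl]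
    refine orth h.aux.ne2 h.aux.ndvd10 h.le h.ld (X := 6 * loc (d * l) m)
      (by rw [mul_comm, h.prod]; exact hDl) (fun _ _ => 1) fun c hr => ?_
    exact NN1 hr f1 f2 h.nd5 hm0 (by rw [hm, ← Int.natCast_mul, mul_comm (D / d) d, h.prod])

/-- the balanced sums, `G = Ph`, both norms prime to `3` -/
theorem bad3 (hd3 : d % 3 = 1) (he3 : D / d % 3 = 1) (hDl : jacobiSym D l = -1) {s : ℤ}
    (hs : (l * s) ^ 2 < (D * l ^ 2 : ℕ))
    (h60 : ((4 * 15 : ℕ) : ℤ) ∣ (D * l ^ 2 : ℕ) - (l * s) ^ 2) :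
    ∑ q ∈ (vec ((d * l : ℕ) : ℤ) ×ˢ vec ((D / d * l : ℕ) : ℤ)).filter
      (fun q => ip q.1 q.2 = l * s), psi ip l q.1 * psi ip l q.2 * Ph q.1 q.2 = 0 := by
  have : Fact l.Prime := ⟨h.aux.prime⟩
  obtain ⟨m, hm0, hm, hm2⟩ := h.det hs
  obtain ⟨f1, f2, -⟩ := nn_facts' h.fd h.un h.sg h.aux.prime h.aux.four h.lD
  unfold nn at f1 f2
  have hl3 := h.aux.three
  have hD3 : D % 3 = 1 := by
    have := h.prod
    rw [← this, Nat.mul_mod, hd3, he3]
  have h3s : ¬ (3 : ℤ) ∣ s := by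
    intro hd
    have h3 : (3 : ℤ) ∣ l ^ 2 * m := by
      rw [← hm2]
      exact Dvd.dvd.trans (by norm_num) h60
    rcases Int.prime_three.dvd_or_dvd h3 with h4 | h4
    · have h5 := Int.prime_three.dvd_of_dvd_pow h4
      omega
    · rw [hm] at h4
      have h5 : (3 : ℤ) ∣ D := by
        have := dvd_add h4 (dvd_pow hd (two_ne_zero))
        rwa [sub_add_cancel] at this
      omega
  by_cases h2 : 2 ∣ d
  · rw [if_pos h2] at f1 f2
    refine orth h.aux.ne2 h.aux.ndvd10 h.ld h.le (X := 12 * loc3 (D / d * l) m)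
      (by rw [h.prod]; exact hDl) Ph fun c hr => ?_
    obtain ⟨k, hk⟩ : ∃ k : ℤ, (3 : ℤ) ∣ c + l * k := by
      obtain ⟨r, hr⟩ : ∃ r : ℤ, (l : ℤ) = 3 * r + 2 := ⟨(l : ℤ) / 3, by omega⟩
      exact ⟨c, (r + 1) * c, by rw [hr]; ring⟩
    rw [PP_mod (c' := c + l * k) ⟨-k, by ring⟩]
    refine NN3 hl3 hk ?_ f1 f2 h.ne5 hd3 he3 h3s hm0 (by rw [hm, ← Int.natCast_mul, h.prod])
    have e6 : (D / d : ℕ) * (c + l * k) ^ 2 - 2 * s * (c + l * k) + d =
        ((D / d : ℕ) * c ^ 2 - 2 * s * c + d) +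
        l * (2 * (D / d : ℕ) * c * k + (D / d : ℕ) * l * k ^ 2 - 2 * s * k) := by ring
    rw [e6]
    exact dvd_add hr (dvd_mul_right _ _)
  · rw [if_neg h2] at f1 f2
    rw [swap Ph_symm]
    refine orth h.aux.ne2 h.aux.ndvd10 h.le h.ld (X := 12 * loc3 (d * l) m)
      (by rw [mul_comm, h.prod]; exact hDl) Ph fun c hr => ?_
    obtain ⟨k, hk⟩ : ∃ k : ℤ, (3 : ℤ) ∣ c + l * k := by
      obtain ⟨r, hr⟩ : ∃ r : ℤ, (l : ℤ) = 3 * r + 2 := ⟨(l : ℤ) / 3, by omega⟩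
      exact ⟨c, (r + 1) * c, by rw [hr]; ring⟩
    rw [PP_mod (c' := c + l * k) ⟨-k, by ring⟩]
    refine NN3 hl3 hk ?_ f1 f2 h.nd5 he3 hd3 h3s hm0
      (by rw [hm, ← Int.natCast_mul, mul_comm (D / d) d, h.prod])
    have e6 : (d : ℤ) * (c + l * k) ^ 2 - 2 * s * (c + l * k) + (D / d : ℕ) =
        ((d : ℤ) * c ^ 2 - 2 * s * c + (D / d : ℕ)) +
        l * (2 * (d : ℤ) * c * k + (d : ℤ) * l * k ^ 2 - 2 * s * k) := by ring
    rw [e6]
    exact dvd_add hr (dvd_mul_right _ _)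

omit h in
/-- the number of pairs as a sum -/
theorem cp_sum (n1 n2 : ℤ) (t : ℤ) :
    ∑ _q ∈ (vec n1 ×ˢ vec n2).filter (fun q => ip q.1 q.2 = t), (1 : ℤ) = (cp n1 t n2 : ℤ) := by
  unfold cp
  rw [card_eq_sum_ones]
  push_cast
  rfl

/-- **clause 1** -/
theorem clause1 : Pool.Agent.N969.RQ.ST 5 D l (fun t _ => o5 (t * l ^ 3) * sj D d l t *
      (cp (d * l : ℕ) t (D / d * l : ℕ) : ℤ)) = s5 d (D / d) * (Rr l d * Rr l (D / d)) := by
  have h1 := h.conv 5 (fun _ _ => 1) (fun t => (cp (d * l : ℕ) t (D / d * l : ℕ) : ℤ))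
    (fun t _ => cp_sum _ _ t) (fun t => by rw [cp_neg])
    (fun v hv w hw h4 => by
      exfalso
      apply h4
      have := d20 v w
      rw [(mem_vec _ _).1 hv, (mem_vec _ _).1 hw, h.prodl] at this
      exact_mod_cast this)
    (fun hDl s hs _ => h.bad1 hDl hs)
  rw [h1]
  congr 1
  unfold Rr
  rw [sum_mul_sum]
  refine sum_congr rfl fun v _ => sum_congr rfl fun w _ => by ring

/-- **clause 2** -/
theorem clause2 (hd3 : d % 3 = 1) (he3 : D / d % 3 = 1) :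
    3 * Pool.Agent.N969.RQ.ST 15 D l (fun t _ => o5 (t * l ^ 3) * sj D d l t *
      ((cp (d * l : ℕ) t (D / d * l : ℕ) : ℤ) + cp3 (d * l : ℕ) t (D / d * l : ℕ))) =
      s5 d (D / d) * (3 * (Rr l d * Rr l (D / d)) + Zz l d * Zz l (D / d)) := by
  have hl3 := h.aux.three
  have n1 : (d * l) % 3 = 2 := by rw [Nat.mul_mod, hl3, hd3]
  have n2 : (D / d * l) % 3 = 2 := by rw [Nat.mul_mod, hl3, he3]
  have hD3 : D % 3 = 1 := by
    have := h.prod
    rw [← this, Nat.mul_mod, hd3, he3]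
  have h1 := h.conv 15 Ph
    (fun t => ((cp (d * l : ℕ) t (D / d * l : ℕ) : ℤ) + cp3 (d * l : ℕ) t (D / d * l : ℕ))) ?_ ?_ ?_
    (fun hDl s hs h60 => h.bad3 hd3 he3 hDl hs h60)
  · have hN : ∀ k : ℕ, k % 3 = 1 → nu (k * l) = 2 := by
      intro k hk
      unfold nu
      rw [if_neg]
      have : (k * l) % 3 = 2 := by rw [Nat.mul_mod, hl3, hk]
      omega
    have h2 := pair_sum h.aux h.ld h.le (Or.inl n1) (Or.inl n2)
    rw [hN d hd3, hN _ he3] at h2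
    rw [h1]
    have h4 : 3 * ∑ v ∈ vec (d * l : ℕ), ∑ w ∈ vec (D / d * l : ℕ), xx l v * xx l w * Ph v w =
        3 * (Rr l d * Rr l (D / d)) + Zz l d * Zz l (D / d) := by linarith
    linear_combination (s5 d (D / d)) * h4
  · intro t ht
    have h3t : ¬ (3 : ℤ) ∣ t := by
      intro hd
      have h3 : (3 : ℤ) ∣ (D * l ^ 2 : ℕ) := by
        have h4 : (3 : ℤ) ∣ (D * l ^ 2 : ℕ) - t ^ 2 := Dvd.dvd.trans (by norm_num) ht
        have := dvd_add h4 (dvd_pow hd (two_ne_zero))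
        rwa [sub_add_cancel] at this
      have h5 : 3 ∣ D * l ^ 2 := by exact_mod_cast h3
      rcases (Nat.Prime.dvd_mul Nat.prime_three).1 h5 with h6 | h6
      · omega
      · have := Nat.Prime.dvd_of_dvd_pow Nat.prime_three h6
        omega
    have e1 : ∀ q ∈ (vec ((d * l : ℕ) : ℤ) ×ˢ vec ((D / d * l : ℕ) : ℤ)).filter
        (fun q => ip q.1 q.2 = t), Ph q.1 q.2 =
        1 + (if ∀ i, (3 : ℤ) ∣ q.1 i + t * q.2 i then 1 else 0) := by
      rintro ⟨v, w⟩ hq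
      rw [mem_filter, mem_product] at hq
      obtain ⟨⟨hv, hw⟩, hvw⟩ := hq
      simp only at hv hw hvw ⊢
      rw [Ph_two n1 n2 hv hw, hvw, if_neg h3t]
    rw [sum_congr rfl e1, sum_add_distrib, cp_sum]
    congr 1
    unfold cp3
    rw [card_filter, sum_filter]
    push_cast
    refine sum_congr rfl fun q _ => ?_
    by_cases h6 : ip q.1 q.2 = t <;> simp [h6]
  · intro t
    show ((cp (d * l : ℕ) (-t) (D / d * l : ℕ) : ℤ) + cp3 (d * l : ℕ) (-t) (D / d * l : ℕ)) = _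
    rw [cp_neg, cp3_neg]
  · intro v hv w hw h4
    rw [Ph_two n1 n2 hv hw]
    by_cases h3 : (3 : ℤ) ∣ ip v w
    · rw [if_pos h3]
    · exfalso
      apply h4
      have h20 := d20 v w
      rw [(mem_vec _ _).1 hv, (mem_vec _ _).1 hw, h.prodl] at h20
      have h3' : (3 : ℤ) ∣ (D * l ^ 2 : ℕ) - ip v w ^ 2 := by
        have e1 : ((D * l ^ 2 : ℕ) : ℤ) % 3 = 1 := by
          have : (D * l ^ 2) % 3 = 1 := by rw [Nat.mul_mod, Nat.pow_mod, hD3, hl3]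
          omega
        have e2 : (ip v w ^ 2) % 3 = 1 := by
          have : ip v w % 3 = 1 ∨ ip v w % 3 = 2 := by omega
          rcases this with h5 | h5 <;> rw [pow_two, Int.mul_emod, h5] <;> norm_num
        omega
      have : ((4 * 15 : ℕ) : ℤ) = 20 * 3 := by norm_num
      rw [this]
      exact IsCoprime.mul_dvd (by norm_num) h20 h3'

/-- **clause 3** -/
theorem clause3 (h3 : 3 ∣ D) (h9 : ¬ 9 ∣ D) (hc : d % 3 = 1 ∨ D / d % 3 = 1) :
    6 * Pool.Agent.N969.RQ.ST 15 D l (fun t _ => o5 (t * l ^ 3) * sj D d l t *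
      (cp (d * l : ℕ) t (D / d * l : ℕ) : ℤ)) =
      s5 d (D / d) * (3 * (Rr l d * Rr l (D / d)) + Zz l d * Zz l (D / d)) := by
  have hl3 := h.aux.three
  have hl3' : ¬ 3 ∣ l := by omega
  -- the two cases
  have hcases : (d % 3 = 1 ∧ 3 ∣ D / d ∧ ¬ 9 ∣ D / d) ∨ (D / d % 3 = 1 ∧ 3 ∣ d ∧ ¬ 9 ∣ d) := by
    have hp := h.prod
    rcases hc with hc | hc
    · left
      refine ⟨hc, ?_, fun h' => h9 (hp ▸ dvd_mul_of_dvd_right h' _)⟩
      rw [← hp] at h3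
      rcases (Nat.Prime.dvd_mul Nat.prime_three).1 h3 with h6 | h6
      · omega
      · exact h6
    · right
      refine ⟨hc, ?_, fun h' => h9 (hp ▸ dvd_mul_of_dvd_left h' _)⟩
      rw [← hp] at h3
      rcases (Nat.Prime.dvd_mul Nat.prime_three).1 h3 with h6 | h6
      · exact h6
      · omega
  have h9l : ∀ k : ℕ, ¬ 9 ∣ k → ¬ 9 ∣ k * l := by
    intro k hk hd
    apply hk
    refine Nat.Coprime.dvd_of_dvd_mul_right ?_ hd
    rw [show (9 : ℕ) = 3 ^ 2 from rfl]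
    exact Nat.Coprime.pow_left 2 ((Nat.Prime.coprime_iff_not_dvd Nat.prime_three).2 hl3')
  have hN2 : ∀ k : ℕ, k % 3 = 1 → Nm (k * l) ∧ nu (k * l) = 2 := by
    intro k hk
    have : (k * l) % 3 = 2 := by rw [Nat.mul_mod, hl3, hk]
    refine ⟨Or.inl this, ?_⟩
    unfold nu
    rw [if_neg (by omega)]
  have hN1 : ∀ k : ℕ, 3 ∣ k → ¬ 9 ∣ k → Nm (k * l) ∧ nu (k * l) = 1 := by
    intro k hk hk9
    refine ⟨Or.inr ⟨hk.mul_right _, h9l k hk9⟩, ?_⟩
    unfold nu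
    rw [if_pos (hk.mul_right _)]
  have hPh : ∀ v ∈ vec (d * l : ℕ), ∀ w ∈ vec (D / d * l : ℕ),
      Ph v w = if (3 : ℤ) ∣ ip v w then 1 else 0 := by
    intro v hv w hw
    rcases hcases with ⟨-, h6, h7⟩ | ⟨-, h6, h7⟩
    · exact Ph_iso' (h6.mul_right _) (h9l _ h7) v hw
    · exact Ph_iso (h6.mul_right _) (h9l _ h7) hv w
  have h3t : ∀ t : ℤ, ((4 * 15 : ℕ) : ℤ) ∣ (D * l ^ 2 : ℕ) - t ^ 2 → (3 : ℤ) ∣ t := by
    intro t ht
    have h4 : (3 : ℤ) ∣ (D * l ^ 2 : ℕ) - t ^ 2 := Dvd.dvd.trans (by norm_num) ht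
    have h5 : (3 : ℤ) ∣ (D * l ^ 2 : ℕ) := by
      push_cast
      exact dvd_mul_of_dvd_left (by exact_mod_cast h3) _
    have h6 : (3 : ℤ) ∣ t ^ 2 := by
      have := dvd_sub h5 h4
      rwa [sub_sub_cancel] at this
    exact Int.prime_three.dvd_of_dvd_pow h6
  have h1 := h.conv 15 Ph (fun t => (cp (d * l : ℕ) t (D / d * l : ℕ) : ℤ)) ?_ ?_ ?_ ?_
  · rw [h1]
    have h2 := pair_sum h.aux h.ld h.le (by
      rcases hcases with ⟨h5, h6, h7⟩ | ⟨h5, h6, h7⟩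
      · exact (hN2 d h5).1
      · exact (hN1 d h6 h7).1) (by
      rcases hcases with ⟨h5, h6, h7⟩ | ⟨h5, h6, h7⟩
      · exact (hN1 _ h6 h7).1
      · exact (hN2 _ h5).1)
    have h8 : nu (d * l) * nu (D / d * l) = 2 := by
      rcases hcases with ⟨h5, h6, h7⟩ | ⟨h5, h6, h7⟩
      · rw [(hN2 d h5).2, (hN1 _ h6 h7).2]; norm_num
      · rw [(hN1 d h6 h7).2, (hN2 _ h5).2]; norm_num
    rw [h8] at h2
    have h9 : 6 * ∑ v ∈ vec (d * l : ℕ), ∑ w ∈ vec (D / d * l : ℕ), xx l v * xx l w * Ph v w =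
        3 * (Rr l d * Rr l (D / d)) + Zz l d * Zz l (D / d) := by linarith
    linear_combination (s5 d (D / d)) * h9
  · intro t ht
    have e1 : ∀ q ∈ (vec ((d * l : ℕ) : ℤ) ×ˢ vec ((D / d * l : ℕ) : ℤ)).filter
        (fun q => ip q.1 q.2 = t), Ph q.1 q.2 = 1 := by
      rintro ⟨v, w⟩ hq
      rw [mem_filter, mem_product] at hq
      obtain ⟨⟨hv, hw⟩, hvw⟩ := hq
      simp only at hv hw hvw ⊢
      rw [hPh v hv w hw, hvw, if_pos (h3t t ht)]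
    rw [sum_congr rfl e1, cp_sum]
  · intro t
    show (cp (d * l : ℕ) (-t) (D / d * l : ℕ) : ℤ) = _
    rw [cp_neg]
  · intro v hv w hw h4
    rw [hPh v hv w hw]
    by_cases h5 : (3 : ℤ) ∣ ip v w
    · exfalso
      apply h4
      have h20 := d20 v w
      rw [(mem_vec _ _).1 hv, (mem_vec _ _).1 hw, h.prodl] at h20
      have h3' : (3 : ℤ) ∣ (D * l ^ 2 : ℕ) - ip v w ^ 2 := by
        refine dvd_sub ?_ (dvd_pow h5 two_ne_zero)
        push_cast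
        exact dvd_mul_of_dvd_left (by exact_mod_cast h3) _
      have : ((4 * 15 : ℕ) : ℤ) = 20 * 3 := by norm_num
      rw [this]
      exact IsCoprime.mul_dvd (by norm_num) h20 h3'
    · rw [if_neg h5]
  · intro hDl s hs h60
    have e1 : ∀ q ∈ (vec ((d * l : ℕ) : ℤ) ×ˢ vec ((D / d * l : ℕ) : ℤ)).filter
        (fun q => ip q.1 q.2 = l * s), psi ip l q.1 * psi ip l q.2 * Ph q.1 q.2 =
        psi ip l q.1 * psi ip l q.2 * (fun _ _ => 1 : V3 → V3 → ℤ) q.1 q.2 := by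
      rintro ⟨v, w⟩ hq
      rw [mem_filter, mem_product] at hq
      obtain ⟨⟨hv, hw⟩, hvw⟩ := hq
      simp only at hv hw hvw ⊢
      rw [hPh v hv w hw, hvw, if_pos (h3t _ h60)]
    rw [sum_congr rfl e1]
    exact h.bad1 hDl hs

end HH

end Pool.Agent.N969.BJ15
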