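import Pool.Agent.N969.BJ15.Sg

/-!
# BILJ15: the signed sums over the vectors on the isotropic lines modulo `3`
-/

set_option autoImplicit false

namespace Pool.Agent.N969.BJ15

open Finset
open Pool.Agent.N969.P15 (V3 ip vec rr rr0 cc)
open Pool.Agent.N970.Sgn
open Pool.Agent.N844.P17G (Iso sig rel)
open Pool.Agent.N973.P15 (lam mu uu g3 s2 mem_vec ip_g3 ip_s2 ip_neg g3_g3 s2_s2 lam_neg lam_s2 lam_g3
  uu_neg uu_s2 ip_uu sum_inv bz lz mz cast3 ip_cast lam_cast fin1 norm_cast3 two_lines)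
open Pool.Agent.N969.RQ (o5 s5)

/-- the hypotheses on the auxiliary prime -/
structure Aux (l : ℕ) : Prop where
  prime : l.Prime
  four : l % 4 = 3
  three : l % 3 = 2
  five : l % 5 = 2 ∨ l % 5 = 3

namespace Aux

variable {l : ℕ} (h : Aux l)
include h

theorem ne2 : l ≠ 2 := by
  rintro rfl
  have := h.four
  omega

theorem ndvd10 : ¬ (l : ℤ) ∣ 10 := by
  intro hd
  have h1 : l ∣ 10 := by exact_mod_cast hd
  have h2 : l ∣ 2 * 5 := by simpa using h1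
  rcases (Nat.Prime.dvd_mul h.prime).1 h2 with h3 | h3
  · exact h.ne2 ((Nat.prime_dvd_prime_iff_eq h.prime Nat.prime_two).1 h3)
  · have := (Nat.prime_dvd_prime_iff_eq h.prime Nat.prime_five).1 h3
    have := h.five
    omega

theorem j5 : jacobiSym 5 l = -1 := by
  have h1 : jacobiSym 5 l = jacobiSym l 5 := by
    have := jacobiSym.quadratic_reciprocity_one_mod_four (a := 5) (b := l) (by norm_num)
      (Nat.odd_iff.2 (by have := h.four; omega))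
    exact_mod_cast this
  rw [h1]
  rcases h.five with h5 | h5
  · have : jacobiSym l 5 = jacobiSym 2 5 := jacobiSym.mod_left' (by omega)
    rw [this]
    norm_num
  · have : jacobiSym l 5 = jacobiSym 3 5 := jacobiSym.mod_left' (by omega)
    rw [this]
    norm_num

end Aux

/-- the signed weight of a vector -/
noncomputable def xx (l : ℕ) (v : V3) : ℤ := psi ip l v * ori l v

section aux

variable {l : ℕ} (h : Aux l) {n : ℕ} (hn : ¬ l ∣ n)
include h hn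

theorem isov {v : V3} (hv : v ∈ vec (n * l : ℕ)) : Iso ip l v := by
  have : Fact l.Prime := ⟨h.prime⟩
  rw [mem_vec] at hv
  refine iso_of frm hv ?_ ?_
  · push_cast
    exact dvd_mul_left _ _
  · intro h1
    have h2 : l ^ 2 ∣ n * l := by exact_mod_cast h1
    rw [pow_two] at h2
    exact hn (Nat.dvd_of_mul_dvd_mul_right h.prime.pos h2)

theorem xx_neg {v : V3} (hv : v ∈ vec (n * l : ℕ)) : xx l (-v) = xx l v := by
  have : Fact l.Prime := ⟨h.prime⟩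
  unfold xx
  rw [psi_neg h.ne2 h.ndvd10 (isov h hn hv) h.four, ori_neg]
  ring

theorem xx_s2 (i : Fin 4) {v : V3} (hv : v ∈ vec (n * l : ℕ)) : xx l (s2 i v) = xx l v := by
  have : Fact l.Prime := ⟨h.prime⟩
  unfold xx
  rw [psi_s2 h.ne2 h.ndvd10 i (isov h hn hv) h.j5, ori_s2]
  ring

theorem xx_g3 {v : V3} (hv : v ∈ vec (n * l : ℕ)) : xx l (g3 v) = xx l v := by
  have : Fact l.Prime := ⟨h.prime⟩
  unfold xx
  rw [psi_g3 h.ne2 h.ndvd10 (isov h hn hv), ori_g3]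

end aux

/-- the signed number of vectors -/
noncomputable def Rr (l n : ℕ) : ℤ := ∑ v ∈ vec (n * l : ℕ), xx l v

/-- the signed number of vectors orthogonal to the line `i` -/
noncomputable def Xi (l : ℕ) (i : Fin 4) (n : ℕ) : ℤ :=
  ∑ v ∈ vec (n * l : ℕ), if (3 : ℤ) ∣ lam i v then xx l v else 0

/-- the factor -/
def cf (n : ℕ) : ℤ := if 3 ∣ n then 4 else 2

/-- the signed Gross sum -/
noncomputable def Zz (l n : ℕ) : ℤ := Rr l n - cf n * Xi l 0 n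

theorem Xi_eq {l : ℕ} (h : Aux l) {n : ℕ} (hn : ¬ l ∣ n) :
    Xi l 2 n = Xi l 1 n ∧ Xi l 3 n = Xi l 1 n := by
  have hi : ∀ v, ip (g3 (g3 v)) (g3 (g3 v)) = ip v v := fun v => by rw [ip_g3, ip_g3]
  have key : ∀ i j : Fin 4, (∀ v, lam i (g3 v) = lam j v) → Xi l j n = Xi l i n := by
    intro i j hij
    have k1 := sum_inv (n * l : ℕ) g3 (fun v => g3 (g3 v)) (fun v => ip_g3 v v) hi
      (fun v => g3_g3 v) (fun v => g3_g3 v) (fun v => if (3 : ℤ) ∣ lam i v then xx l v else 0)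
    unfold Xi
    rw [← k1]
    refine sum_congr rfl fun v hv => ?_
    show (if (3 : ℤ) ∣ lam j v then xx l v else 0) =
      if (3 : ℤ) ∣ lam i (g3 v) then xx l (g3 v) else 0
    rw [hij, xx_g3 h hn hv]
  exact ⟨key 1 2 fun v => (lam_g3 v).1, (key 3 1 fun v => (lam_g3 v).2.2).symm⟩

theorem fin4 : ∀ a b c : ZMod 3, bz a b c a b c = 0 → ¬ (a = 0 ∧ b = 0 ∧ c = 0) →
    (∑ i : Fin 4, if lz i a b c = 0 then 1 else 0) = 1 := by
  decide +kernel

theorem fin5 : ∀ a b c : ZMod 3, bz a b c a b c = 0 → ¬ (a = 0 ∧ b = 0 ∧ c = 0) →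
    ∀ x y z : ZMod 3, (if bz a b c x y z = 0 then 1 else 0) =
    (∑ i : Fin 4, if lz i a b c = 0 ∧ lz i x y z = 0 then 1 else 0) := by
  decide +kernel

theorem fin6 : ∀ a b c : ZMod 3, bz a b c a b c = 2 → ∀ x y z : ZMod 3, bz x y z x y z = 2 →
    (if bz a b c x y z = 0 then 0 else 1 + (if a + bz a b c x y z * x = 0 ∧
      b + bz a b c x y z * y = 0 ∧ c + bz a b c x y z * z = 0 then 1 else 0)) =
    (∑ i : Fin 4, if lz i a b c = 0 ∧ lz i x y z = 0 then 1 else 0) := by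
  decide +kernel

/-- isotropic vectors modulo `3` -/
theorem iso3 {n : ℕ} (h3 : 3 ∣ n) (h9 : ¬ 9 ∣ n) {v : V3} (hv : v ∈ vec n) :
    bz (v 0 : ZMod 3) (v 1) (v 2) (v 0) (v 1) (v 2) = 0 ∧
      ¬ ((v 0 : ZMod 3) = 0 ∧ (v 1 : ZMod 3) = 0 ∧ (v 2 : ZMod 3) = 0) := by
  rw [mem_vec] at hv
  constructor
  · rw [← ip_cast, hv, ← cast3]
    exact_mod_cast h3
  · rintro ⟨h0, h1, h2⟩
    rw [← cast3] at h0 h1 h2
    obtain ⟨a, ha⟩ := h0
    obtain ⟨b, hb⟩ := h1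
    obtain ⟨c, hc⟩ := h2
    apply h9
    have : (9 : ℤ) ∣ n := by
      rw [← hv]
      refine ⟨3 * a ^ 2 + 7 * b ^ 2 + 7 * c ^ 2 - 2 * (a * b) - 2 * (a * c) - 6 * (b * c), ?_⟩
      unfold ip
      rw [ha, hb, hc]
      ring
    exact_mod_cast this

/-- the number of lines of a vector -/
def nu (n : ℕ) : ℤ := if 3 ∣ n then 1 else 2

/-- the hypothesis on the norms -/
def Nm (n : ℕ) : Prop := n % 3 = 2 ∨ (3 ∣ n ∧ ¬ 9 ∣ n)

theorem cast_lines (v : V3) : (∑ i : Fin 4, if (3 : ℤ) ∣ lam i v then (1 : ℤ) else 0) =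
    ((∑ i : Fin 4, if lz i (v 0 : ZMod 3) (v 1) (v 2) = 0 then 1 else 0 : ℕ) : ℤ) := by
  rw [Nat.cast_sum]
  refine sum_congr rfl fun i _ => ?_
  have h3 : (3 : ℤ) ∣ lam i v ↔ lz i (v 0 : ZMod 3) (v 1) (v 2) = 0 := by
    rw [cast3, lam_cast]
  by_cases h4 : (3 : ℤ) ∣ lam i v
  · rw [if_pos h4, if_pos (h3.1 h4)]
    rfl
  · rw [if_neg h4, if_neg (fun h => h4 (h3.2 h))]
    rfl

theorem cast_pair (v w : V3) :
    (∑ i : Fin 4, if (3 : ℤ) ∣ lam i v ∧ (3 : ℤ) ∣ lam i w then (1 : ℤ) else 0) =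
    ((∑ i : Fin 4, if lz i (v 0 : ZMod 3) (v 1) (v 2) = 0 ∧ lz i (w 0 : ZMod 3) (w 1) (w 2) = 0
      then 1 else 0 : ℕ) : ℤ) := by
  rw [Nat.cast_sum]
  refine sum_congr rfl fun i _ => ?_
  have h3 : ((3 : ℤ) ∣ lam i v ∧ (3 : ℤ) ∣ lam i w) ↔ (lz i (v 0 : ZMod 3) (v 1) (v 2) = 0 ∧
      lz i (w 0 : ZMod 3) (w 1) (w 2) = 0) := by
    rw [cast3, lam_cast, cast3, lam_cast]
  by_cases h4 : (3 : ℤ) ∣ lam i v ∧ (3 : ℤ) ∣ lam i w
  · rw [if_pos h4, if_pos (h3.1 h4)]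
    rfl
  · rw [if_neg h4, if_neg (fun h => h4 (h3.2 h))]
    rfl

theorem lines {n : ℕ} (h : Nm n) {v : V3} (hv : v ∈ vec n) :
    (∑ i : Fin 4, if (3 : ℤ) ∣ lam i v then (1 : ℤ) else 0) = nu n := by
  unfold nu
  rcases h with h | ⟨h3, h9⟩
  · rw [two_lines h hv, if_neg (by omega)]
  · obtain ⟨h1, h2⟩ := iso3 h3 h9 hv
    rw [cast_lines, fin4 _ _ _ h1 h2, if_pos h3]
    rfl

/-- the number of common lines -/
def Ph (v w : V3) : ℤ := ∑ i : Fin 4, if (3 : ℤ) ∣ lam i v ∧ (3 : ℤ) ∣ lam i w then (1 : ℤ) else 0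

theorem Ph_iso {n : ℕ} (h3 : 3 ∣ n) (h9 : ¬ 9 ∣ n) {v : V3} (hv : v ∈ vec n) (w : V3) :
    Ph v w = if (3 : ℤ) ∣ ip v w then 1 else 0 := by
  obtain ⟨h1, h2⟩ := iso3 h3 h9 hv
  unfold Ph
  rw [cast_pair, ← fin5 _ _ _ h1 h2]
  have h4 : (3 : ℤ) ∣ ip v w ↔ bz (v 0 : ZMod 3) (v 1) (v 2) (w 0) (w 1) (w 2) = 0 := by
    rw [cast3, ip_cast]
  by_cases h5 : (3 : ℤ) ∣ ip v w
  · rw [if_pos h5, if_pos (h4.1 h5)]
    rfl
  · rw [if_neg h5, if_neg (fun h => h5 (h4.2 h))]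
    rfl

theorem Ph_symm (v w : V3) : Ph v w = Ph w v := by
  unfold Ph
  refine sum_congr rfl fun i _ => ?_
  by_cases h : (3 : ℤ) ∣ lam i v ∧ (3 : ℤ) ∣ lam i w
  · rw [if_pos h, if_pos h.symm]
  · rw [if_neg h, if_neg fun h' => h h'.symm]

theorem ip_symm (v w : V3) : ip v w = ip w v := frm.symm v w

theorem Ph_iso' {n : ℕ} (h3 : 3 ∣ n) (h9 : ¬ 9 ∣ n) (v : V3) {w : V3} (hw : w ∈ vec n) :
    Ph v w = if (3 : ℤ) ∣ ip v w then 1 else 0 := by
  rw [Ph_symm, Ph_iso h3 h9 hw, ip_symm]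

theorem Ph_two {n n' : ℕ} (h : n % 3 = 2) (h' : n' % 3 = 2) {v w : V3} (hv : v ∈ vec n)
    (hw : w ∈ vec n') :
    Ph v w = if (3 : ℤ) ∣ ip v w then 0 else
      1 + (if ∀ i, (3 : ℤ) ∣ v i + ip v w * w i then 1 else 0) := by
  unfold Ph
  rw [cast_pair, ← fin6 _ _ _ (norm_cast3 h hv) _ _ _ (norm_cast3 h' hw)]
  have h4 : (3 : ℤ) ∣ ip v w ↔ bz (v 0 : ZMod 3) (v 1) (v 2) (w 0) (w 1) (w 2) = 0 := by
    rw [cast3, ip_cast]
  have h5 : (∀ i, (3 : ℤ) ∣ v i + ip v w * w i) ↔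
      ((v 0 : ZMod 3) + bz (v 0 : ZMod 3) (v 1) (v 2) (w 0) (w 1) (w 2) * (w 0 : ZMod 3) = 0 ∧
      (v 1 : ZMod 3) + bz (v 0 : ZMod 3) (v 1) (v 2) (w 0) (w 1) (w 2) * (w 1 : ZMod 3) = 0 ∧
      (v 2 : ZMod 3) + bz (v 0 : ZMod 3) (v 1) (v 2) (w 0) (w 1) (w 2) * (w 2 : ZMod 3) = 0) := by
    have e : ∀ i, (3 : ℤ) ∣ v i + ip v w * w i ↔
        (v i : ZMod 3) + bz (v 0 : ZMod 3) (v 1) (v 2) (w 0) (w 1) (w 2) * (w i : ZMod 3) = 0 := by
      intro i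
      rw [cast3, ← ip_cast]
      push_cast
      rfl
    constructor
    · intro h
      exact ⟨(e 0).1 (h 0), (e 1).1 (h 1), (e 2).1 (h 2)⟩
    · rintro ⟨k0, k1, k2⟩ i
      fin_cases i
      · exact (e 0).2 k0
      · exact (e 1).2 k1
      · exact (e 2).2 k2
  by_cases h6 : (3 : ℤ) ∣ ip v w
  · rw [if_pos h6, if_pos (h4.1 h6)]
    rfl
  · rw [if_neg h6, if_neg (fun h => h6 (h4.2 h))]
    by_cases h7 : ∀ i, (3 : ℤ) ∣ v i + ip v w * w i
    · rw [if_pos h7, if_pos (h5.1 h7)]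
      rfl
    · rw [if_neg h7, if_neg (fun h => h7 (h5.2 h))]
      rfl

/-- the sum over the lines -/
theorem Xi_sum {l : ℕ} (h : Aux l) {n : ℕ} (hn : ¬ l ∣ n) (hN : Nm (n * l)) :
    Xi l 0 n + 3 * Xi l 1 n = nu (n * l) * Rr l n := by
  have h1 : ∑ i : Fin 4, Xi l i n = nu (n * l) * Rr l n := by
    unfold Xi Rr
    rw [Finset.sum_comm, mul_sum]
    refine sum_congr rfl fun v hv => ?_
    rw [← lines hN hv, sum_mul]
    refine sum_congr rfl fun i _ => ?_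
    split_ifs <;> ring
  rw [Fin.sum_univ_four, (Xi_eq h hn).1, (Xi_eq h hn).2] at h1
  linarith

theorem nu_cf {l : ℕ} (h : Aux l) (n : ℕ) : nu (n * l) * cf n = 4 := by
  unfold nu cf
  have h3 : 3 ∣ n * l ↔ 3 ∣ n := by
    constructor
    · intro hd
      rcases (Nat.Prime.dvd_mul Nat.prime_three).1 hd with h1 | h1
      · exact h1
      · have := h.three
        omega
    · exact fun hd => dvd_mul_of_dvd_left hd _
  by_cases hd : 3 ∣ n
  · rw [if_pos hd, if_pos (h3.2 hd)]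
    norm_num
  · rw [if_neg hd, if_neg (fun h => hd (h3.1 h))]
    norm_num

/-- the sum over the pairs with a common line -/
theorem pair_sum {l : ℕ} (h : Aux l) {n n' : ℕ} (hn : ¬ l ∣ n) (hn' : ¬ l ∣ n')
    (hN : Nm (n * l)) (hN' : Nm (n' * l)) :
    12 * ∑ v ∈ vec (n * l : ℕ), ∑ w ∈ vec (n' * l : ℕ), xx l v * xx l w * Ph v w =
      nu (n * l) * nu (n' * l) * (3 * (Rr l n * Rr l n') + Zz l n * Zz l n') := by
  have h1 : ∑ v ∈ vec (n * l : ℕ), ∑ w ∈ vec (n' * l : ℕ), xx l v * xx l w * Ph v w =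
      ∑ i : Fin 4, Xi l i n * Xi l i n' := by
    have e1 : ∀ i : Fin 4, Xi l i n * Xi l i n' = ∑ v ∈ vec (n * l : ℕ), ∑ w ∈ vec (n' * l : ℕ),
        xx l v * xx l w * (if (3 : ℤ) ∣ lam i v ∧ (3 : ℤ) ∣ lam i w then 1 else 0) := by
      intro i
      unfold Xi
      rw [sum_mul_sum]
      refine sum_congr rfl fun v _ => sum_congr rfl fun w _ => ?_
      by_cases ha : (3 : ℤ) ∣ lam i v <;> by_cases hb : (3 : ℤ) ∣ lam i w <;> simp [ha, hb]
    simp only [e1]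
    rw [Finset.sum_comm (s := (univ : Finset (Fin 4)))]
    refine sum_congr rfl fun v _ => ?_
    rw [Finset.sum_comm (s := (univ : Finset (Fin 4)))]
    refine sum_congr rfl fun w _ => ?_
    unfold Ph
    rw [mul_sum]
  rw [h1, Fin.sum_univ_four, (Xi_eq h hn).1, (Xi_eq h hn).2, (Xi_eq h hn').1, (Xi_eq h hn').2]
  have k1 := Xi_sum h hn hN
  have k2 := Xi_sum h hn' hN'
  have c1 := nu_cf h n
  have c2 := nu_cf h n'
  unfold Zz
  generalize Xi l 0 n = a at *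
  generalize Xi l 0 n' = a' at *
  generalize Xi l 1 n = b at *
  generalize Xi l 1 n' = b' at *
  generalize Rr l n = R at *
  generalize Rr l n' = R' at *
  generalize nu (n * l) = u at *
  generalize nu (n' * l) = u' at *
  generalize cf n = f at *
  generalize cf n' = f' at *
  -- `u (R - f a) = u R - 4 a`
  have e1 : u * (R - f * a) = u * R - 4 * a := by linear_combination -a * c1
  have e2 : u' * (R' - f' * a') = u' * R' - 4 * a' := by linear_combination -a' * c2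
  have e3 : u * u' * (3 * (R * R') + (R - f * a) * (R' - f' * a')) =
      3 * ((u * R) * (u' * R')) + (u * (R - f * a)) * (u' * (R' - f' * a')) := by ring
  rw [e3, e1, e2, ← k1, ← k2]
  ring

end Pool.Agent.N969.BJ15
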