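import Pool.Agent.N969.BJ15.Lin
import Pool.Agent.N970.Sgn.Prop
import Pool.Agent.N871.P15.Fin

/-!
# BILJ15: the signed sum over the pairs with inner product divisible by `l` vanishes if `(D / l) = -1`
-/

set_option autoImplicit false

namespace Pool.Agent.N969.BJ15

open Finset
open Pool.Agent.N969.P15 (V3 ip vec rr rr0 cc cp cp3 loc loc3)
open Pool.Agent.N970.Sgn
open Pool.Agent.N844.P17G (Iso sig rel)
open Pool.Agent.N973.P15 (lam mu uu g3 s2 mem_vec ip_g3 ip_s2 ip_neg cast3 lam_cast)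

/-- the pairs with `v = c w` modulo `l` -/
noncomputable def PP (l n1 n2 : ℕ) (t c : ℤ) : Finset (V3 × V3) :=
  (vec n1 ×ˢ vec n2).filter fun q => ip q.1 q.2 = t ∧ ∀ i, (l : ℤ) ∣ q.1 i - c * q.2 i

theorem PP_mod {l n1 n2 : ℕ} {t c c' : ℤ} (h : (l : ℤ) ∣ c - c') :
    PP l n1 n2 t c = PP l n1 n2 t c' := by
  unfold PP
  refine filter_congr fun q _ => and_congr_right fun _ => forall_congr' fun i => ?_
  have e : q.1 i - c' * q.2 i = (q.1 i - c * q.2 i) + (c - c') * q.2 i := by ring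
  rw [e]
  exact (dvd_add_left (h.mul_right _)).symm

section

variable {l : ℕ} [hl : Fact l.Prime]

/-- the substitution `v = c w + l x` -/
theorem PP_sum {d e : ℕ} {t c nx : ℤ} (hnx : e * c ^ 2 - 2 * t * c + d = l * nx)
    (G : V3 → V3 → ℤ) :
    ∑ q ∈ PP l (d * l) (e * l) (l * t) c, G q.1 q.2 =
      ∑ q ∈ (vec ((e * l : ℕ) : ℤ) ×ˢ vec nx).filter
        (fun q => ip q.1 q.2 = t - c * e), G (fun j => c * q.1 j + l * q.2 j) q.1 := by
  have hl0 : (l : ℤ) ≠ 0 := by exact_mod_cast hl.out.ne_zero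
  symm
  refine sum_bij (fun q _ => ((fun j => c * q.1 j + l * q.2 j), q.1)) ?_ ?_ ?_ ?_
  · rintro ⟨w, x⟩ hq
    rw [mem_filter, mem_product, mem_vec, mem_vec] at hq
    obtain ⟨⟨hw, hx⟩, hwx⟩ := hq
    simp only at hw hx hwx
    unfold PP
    rw [mem_filter, mem_product, mem_vec, mem_vec]
    refine ⟨⟨?_, hw⟩, ?_, fun i => ?_⟩
    · show ip (fun j => c * w j + l * x j) (fun j => c * w j + l * x j) = (d * l : ℕ)
      have e1 : ip (fun j => c * w j + l * x j) (fun j => c * w j + l * x j) =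
          c ^ 2 * ip w w + 2 * (c * l) * ip w x + l ^ 2 * ip x x := by
        unfold ip; ring
      rw [e1, hw, hx, hwx]
      push_cast
      linear_combination (-(l : ℤ)) * hnx
    · show ip (fun j => c * w j + l * x j) w = l * t
      have e1 : ip (fun j => c * w j + l * x j) w = c * ip w w + l * ip w x := by
        unfold ip; ring
      rw [e1, hw, hwx]
      push_cast
      ring
    · show (l : ℤ) ∣ c * w i + l * x i - c * w i
      exact ⟨x i, by ring⟩
  · rintro ⟨w, x⟩ _ ⟨w', x'⟩ _ h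
    simp only [Prod.mk.injEq] at h
    obtain ⟨h1, rfl⟩ := h
    have : x = x' := by
      funext i
      have h3 : c * w i + l * x i = c * w i + l * x' i := congrFun h1 i
      exact mul_left_cancel₀ hl0 (by linarith)
    rw [this]
  · rintro ⟨v, w⟩ hq
    unfold PP at hq
    rw [mem_filter, mem_product, mem_vec, mem_vec] at hq
    obtain ⟨⟨hv, hw⟩, hvw, hc⟩ := hq
    simp only at hv hw hvw hc
    have h4 : ∀ i, ∃ x : ℤ, v i = c * w i + l * x := by
      intro i
      obtain ⟨x, hx⟩ := hc i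
      exact ⟨x, by linarith⟩
    choose x hx using h4
    have hvx : v = fun j => c * w j + l * x j := funext hx
    refine ⟨(w, x), ?_, ?_⟩
    · rw [mem_filter, mem_product, mem_vec, mem_vec]
      have e1 : ip v w = c * ip w w + l * ip w x := by
        rw [hvx]; unfold ip; ring
      have e2 : ip v v = c ^ 2 * ip w w + 2 * (c * l) * ip w x + l ^ 2 * ip x x := by
        rw [hvx]; unfold ip; ring
      have h5 : ip w x = t - c * e := by
        apply mul_left_cancel₀ hl0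
        rw [hvw, hw] at e1
        push_cast at e1
        linear_combination -e1
      refine ⟨⟨hw, ?_⟩, h5⟩
      show ip x x = nx
      apply mul_left_cancel₀ (pow_ne_zero 2 hl0)
      rw [hv, hw, h5] at e2
      push_cast at e2
      linear_combination (l : ℤ) * hnx - e2
    · rw [hvx]
  · rintro ⟨w, x⟩ _
    rfl

/-- the norm of the new vector is positive -/
theorem nx_pos {d e m : ℕ} {t c nx : ℤ} (hnx : e * c ^ 2 - 2 * t * c + d = l * nx)
    (he : 0 < e) (hm0 : 0 < m) (hm : (m : ℤ) = d * e - t ^ 2) :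
    (e : ℤ) * l * nx - (t - c * e) ^ 2 = m ∧ 0 < nx := by
  have hlp : (0 : ℤ) < l := by exact_mod_cast hl.out.pos
  have hdet : (e : ℤ) * l * nx - (t - c * e) ^ 2 = m := by
    rw [hm]
    linear_combination (-(e : ℤ)) * hnx
  refine ⟨hdet, ?_⟩
  have he0 : (0 : ℤ) < e := by exact_mod_cast he
  have h1 : 0 < (e : ℤ) * l * nx := by
    have h4 : (0 : ℤ) < m := by exact_mod_cast hm0
    nlinarith [sq_nonneg (t - c * e)]
  exact (pos_iff_pos_of_mul_pos h1).1 (mul_pos he0 hlp)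

/-- the number of the pairs with `v = c w` modulo `l` -/
theorem NN1 {d e m : ℕ} {t c : ℤ} (hr : (l : ℤ) ∣ e * c ^ 2 - 2 * t * c + d)
    (hs : Squarefree (e * l)) (h4 : (e * l) % 4 = 3) (h5 : ¬ 5 ∣ e * l)
    (hm0 : 0 < m) (hm : (m : ℤ) = d * e - t ^ 2) :
    ∑ q ∈ PP l (d * l) (e * l) (l * t) c, (1 : ℤ) = 6 * loc (e * l) m := by
  obtain ⟨nx, hnx⟩ := hr
  have he : 0 < e := Nat.pos_of_ne_zero (by rintro rfl; simp at h4)
  obtain ⟨hdet, hx0⟩ := nx_pos hnx he hm0 hm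
  obtain ⟨n, rfl⟩ := Int.eq_ofNat_of_zero_le hx0.le
  rw [PP_sum hnx (fun _ _ => 1)]
  have hc := Pool.Agent.N972.PC15.t_PC (e * l) n (t - c * e) m hs h4 h5 hm0 (by
    rw [← hdet]; push_cast; ring)
  rw [← hc]
  unfold cp
  rw [card_eq_sum_ones]
  push_cast
  rfl

/-- the number of common lines of the pairs with `v = c w` modulo `l` -/
theorem NN3 (hl3 : l % 3 = 2) {d e m : ℕ} {t c : ℤ} (h3c : (3 : ℤ) ∣ c)
    (hr : (l : ℤ) ∣ e * c ^ 2 - 2 * t * c + d)
    (hs : Squarefree (e * l)) (h4 : (e * l) % 4 = 3) (h5 : ¬ 5 ∣ e * l)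
    (hd3 : d % 3 = 1) (he3 : e % 3 = 1) (h3t : ¬ (3 : ℤ) ∣ t)
    (hm0 : 0 < m) (hm : (m : ℤ) = d * e - t ^ 2) :
    ∑ q ∈ PP l (d * l) (e * l) (l * t) c, Ph q.1 q.2 = 12 * loc3 (e * l) m := by
  obtain ⟨nx, hnx⟩ := hr
  obtain ⟨hdet, hx0⟩ := nx_pos hnx (by omega) hm0 hm
  obtain ⟨n, rfl⟩ := Int.eq_ofNat_of_zero_le hx0.le
  have hn3 : n % 3 = 2 := by
    obtain ⟨k, rfl⟩ := h3c
    obtain ⟨r, hr⟩ : ∃ r : ℤ, (l : ℤ) = 3 * r + 2 := ⟨(l : ℤ) / 3, by omega⟩
    have h5 : (d : ℤ) = 2 * n + 3 * (r * n - 3 * e * k ^ 2 + 2 * t * k) := by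
      rw [hr] at hnx
      linear_combination hnx
    generalize r * (n : ℤ) - 3 * e * k ^ 2 + 2 * t * k = z at h5
    omega
  have hel3 : (e * l) % 3 = 2 := by rw [Nat.mul_mod, hl3, he3]
  rw [PP_sum hnx Ph]
  have hb : ¬ (3 : ℤ) ∣ t - c * e := by
    intro h
    apply h3t
    have := dvd_add h (h3c.mul_right (e : ℤ))
    rwa [sub_add_cancel] at this
  have hc := Pool.Agent.N871.P15.s_CP3 (e * l) n (t - c * e) m hs h4 hel3 hn3 h5 hb hm0 (by
    rw [← hdet]; push_cast; ring)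
  rw [← hc]
  have e1 : ∀ q ∈ (vec ((e * l : ℕ) : ℤ) ×ˢ vec (n : ℤ)).filter
        (fun q => ip q.1 q.2 = t - c * e), Ph (fun j => c * q.1 j + l * q.2 j) q.1 =
      1 + (if ∀ i, (3 : ℤ) ∣ q.1 i + (t - c * e) * q.2 i then 1 else 0) := by
    rintro ⟨w, x⟩ hq
    rw [mem_filter, mem_product] at hq
    obtain ⟨⟨hw, hx⟩, hwx⟩ := hq
    simp only at hw hx hwx ⊢
    have e2 : Ph (fun j => c * w j + l * x j) w = Ph w x := by
      rw [Ph_symm]
      unfold Ph
      refine sum_congr rfl fun i _ => ?_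
      have e3 : (3 : ℤ) ∣ lam i (fun j => c * w j + l * x j) ↔ (3 : ℤ) ∣ lam i x := by
        have e4 : lam i (fun j => c * w j + l * x j) = c * lam i w + l * lam i x := by
          fin_cases i <;>
          · simp only [lam, Fin.zero_eta, Fin.mk_one, Fin.reduceFinMk]
            ring
        rw [e4, dvd_add_right (h3c.mul_right _)]
        constructor
        · intro h
          rcases Int.prime_three.dvd_or_dvd h with h6 | h6
          · omega
          · exact h6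
        · exact fun h => h.mul_left _
      simp only [e3]
    rw [e2, Ph_two hel3 hn3 hw hx, hwx, if_neg hb]
  rw [sum_congr rfl e1, sum_add_distrib]
  congr 1
  · unfold cp
    rw [card_eq_sum_ones]
    push_cast
    rfl
  · unfold cp3
    rw [card_filter, sum_filter]
    push_cast
    refine sum_congr rfl fun q _ => ?_
    by_cases h6 : ip q.1 q.2 = t - c * e <;> simp [h6]

/-- the signed sum over the pairs with `l ∣ t` vanishes if `(D / l) = -1` -/
theorem orth (h2 : l ≠ 2) (h10 : ¬ (l : ℤ) ∣ 10) {d e : ℕ} {t X : ℤ} (hld : ¬ l ∣ d)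
    (hle : ¬ l ∣ e) (hDl : jacobiSym ((d * e : ℕ) : ℤ) l = -1) (G : V3 → V3 → ℤ)
    (hG : ∀ c : ℤ, (l : ℤ) ∣ e * c ^ 2 - 2 * t * c + d →
      ∑ q ∈ PP l (d * l) (e * l) (l * t) c, G q.1 q.2 = X) :
    ∑ q ∈ (vec ((d * l : ℕ) : ℤ) ×ˢ vec ((e * l : ℕ) : ℤ)).filter
      (fun q => ip q.1 q.2 = l * t), psi ip l q.1 * psi ip l q.2 * G q.1 q.2 = 0 := by
  have hlp : Prime (l : ℤ) := Nat.prime_iff_prime_int.1 hl.out
  by_cases hne : ((vec ((d * l : ℕ) : ℤ) ×ˢ vec ((e * l : ℕ) : ℤ)).filter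
      (fun q => ip q.1 q.2 = l * t)).Nonempty
  swap
  · rw [not_nonempty_iff_eq_empty.1 hne, sum_empty]
  obtain ⟨⟨v0, w0⟩, hq⟩ := hne
  rw [mem_filter, mem_product, mem_vec, mem_vec] at hq
  obtain ⟨⟨hv0, hw0⟩, hvw0⟩ := hq
  simp only at hv0 hw0 hvw0
  have iv : ∀ {v : V3}, ip v v = (d * l : ℕ) → Iso ip l v := fun h => iso_mul frm hld h
  have iw : ∀ {w : V3}, ip w w = (e * l : ℕ) → Iso ip l w := fun h => iso_mul frm hle h
  obtain ⟨c1, hc1, hp1⟩ := prop_ex frm h2 h10 (iv hv0) (iw hw0) (by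
    rw [hvw0]; exact dvd_mul_right _ _)
  have r1 := root_of frm hv0 hw0 hvw0 hp1
  -- the other root
  have hleZ : ¬ (l : ℤ) ∣ e := fun h => hle (by exact_mod_cast h)
  obtain ⟨a, b, hab⟩ : IsCoprime (e : ℤ) (l : ℤ) :=
    ((Prime.coprime_iff_not_dvd hlp).2 hleZ).symm
  obtain ⟨c2, hc2⟩ : ∃ c2 : ℤ, c2 = 2 * t * a - c1 := ⟨_, rfl⟩
  have hs : (l : ℤ) ∣ e * (c1 + c2) - 2 * t := by
    rw [hc2]
    exact ⟨-(2 * t * b), by linear_combination (2 * t) * hab⟩
  have r2 : (l : ℤ) ∣ e * c2 ^ 2 - 2 * t * c2 + d := by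
    have e1 : e * c2 ^ 2 - 2 * t * c2 + d = (e * c1 ^ 2 - 2 * t * c1 + d) +
        (c2 - c1) * (e * (c1 + c2) - 2 * t) := by ring
    rw [e1]
    exact dvd_add r1 (hs.mul_left _)
  have hpr : (l : ℤ) ∣ (e : ℤ) ^ 2 * (c1 * c2) - (d * e : ℕ) := by
    have e1 : (e : ℤ) ^ 2 * (c1 * c2) - (d * e : ℕ) =
        (e : ℤ) * (c1 * (e * (c1 + c2) - 2 * t)) - e * (e * c1 ^ 2 - 2 * t * c1 + d) := by
      push_cast; ring
    rw [e1]
    exact dvd_sub ((hs.mul_left _).mul_left _) (r1.mul_left _)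
  have hJ : jacobiSym c1 l * jacobiSym c2 l = -1 := by
    have e1 := jac_of_mod hpr
    rw [hDl, jacobiSym.mul_left, jacobiSym.mul_left, jacobiSym.sq_one', one_mul] at e1
    · exact e1
    · rw [Int.gcd_natCast_natCast]
      exact ((Nat.Prime.coprime_iff_not_dvd hl.out).2 hle).symm
  have hne12 : ¬ (l : ℤ) ∣ c1 - c2 := by
    intro h
    have e1 := jac_of_mod h
    rw [e1] at hJ
    nlinarith [mul_self_nonneg (jacobiSym c2 l)]
  -- splitting
  have hsplit : (vec ((d * l : ℕ) : ℤ) ×ˢ vec ((e * l : ℕ) : ℤ)).filter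
      (fun q => ip q.1 q.2 = l * t) =
      PP l (d * l) (e * l) (l * t) c1 ∪ PP l (d * l) (e * l) (l * t) c2 := by
    ext ⟨v, w⟩
    unfold PP
    rw [mem_union, mem_filter, mem_filter, mem_filter, mem_product, mem_vec, mem_vec]
    constructor
    · rintro ⟨⟨hv, hw⟩, hvw⟩
      obtain ⟨c, -, hp⟩ := prop_ex frm h2 h10 (iv hv) (iw hw) (by
        simp only at hvw
        rw [hvw]; exact dvd_mul_right _ _)
      have r := root_of frm hv hw hvw hp
      have e1 : (l : ℤ) ∣ (c - c1) * (c - c2) := by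
        have e2 : (l : ℤ) ∣ e * ((c - c1) * (c - c2)) := by
          have e3 : e * ((c - c1) * (c - c2)) = (e * c ^ 2 - 2 * t * c + d) -
              (c - c1) * (e * (c1 + c2) - 2 * t) - (e * c1 ^ 2 - 2 * t * c1 + d) := by ring
          rw [e3]
          exact dvd_sub (dvd_sub r (hs.mul_left _)) r1
        rcases hlp.dvd_or_dvd e2 with h | h
        · exact absurd h hleZ
        · exact h
      rcases hlp.dvd_or_dvd e1 with h | h
      · left
        refine ⟨⟨hv, hw⟩, hvw, fun i => ?_⟩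
        have e4 : v i - c1 * w i = (v i - c * w i) + (c - c1) * w i := by ring
        show (l : ℤ) ∣ v i - c1 * w i
        rw [e4]
        exact dvd_add (hp i) (h.mul_right _)
      · right
        refine ⟨⟨hv, hw⟩, hvw, fun i => ?_⟩
        have e4 : v i - c2 * w i = (v i - c * w i) + (c - c2) * w i := by ring
        show (l : ℤ) ∣ v i - c2 * w i
        rw [e4]
        exact dvd_add (hp i) (h.mul_right _)
    · rintro (h | h)
      · exact ⟨h.1, h.2.1⟩
      · exact ⟨h.1, h.2.1⟩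
  have hdisj : Disjoint (PP l (d * l) (e * l) (l * t) c1) (PP l (d * l) (e * l) (l * t) c2) := by
    rw [disjoint_left]
    rintro ⟨v, w⟩ ha hb
    unfold PP at ha hb
    rw [mem_filter, mem_product, mem_vec, mem_vec] at ha hb
    obtain ⟨j, hj⟩ := (iw ha.1.2).2
    have h5 : (l : ℤ) ∣ (c1 - c2) * w j := by
      have e4 : (c1 - c2) * w j = (v j - c2 * w j) - (v j - c1 * w j) := by ring
      rw [e4]
      exact dvd_sub (hb.2.2 j) (ha.2.2 j)
    rcases hlp.dvd_or_dvd h5 with h | h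
    · exact hne12 h
    · exact hj h
  have hpart : ∀ c : ℤ, (l : ℤ) ∣ e * c ^ 2 - 2 * t * c + d →
      ∑ q ∈ PP l (d * l) (e * l) (l * t) c, psi ip l q.1 * psi ip l q.2 * G q.1 q.2 =
        jacobiSym c l * X := by
    intro c hr
    have e5 : ∀ q ∈ PP l (d * l) (e * l) (l * t) c,
        psi ip l q.1 * psi ip l q.2 * G q.1 q.2 = jacobiSym c l * G q.1 q.2 := by
      rintro ⟨v, w⟩ hq
      unfold PP at hq
      rw [mem_filter, mem_product, mem_vec, mem_vec] at hq
      obtain ⟨⟨hv, hw⟩, hvw, hc⟩ := hq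
      simp only at hv hw hvw hc ⊢
      rw [psi_mul frm h2 h10 (iv hv) (iw hw), sig_prp frm h2 h10 (iv hv) (iw hw) (by
        rw [hvw]; exact dvd_mul_right _ _) hc]
    rw [sum_congr rfl e5, ← mul_sum, hG c hr]
  rw [hsplit, sum_union hdisj, hpart c1 r1, hpart c2 r2]
  have h3 : jacobiSym c1 l = 1 ∨ jacobiSym c1 l = -1 := by
    rw [jac_eq]
    rw [dvd_cast] at hc1
    exact quadraticChar_dichotomy hc1
  rcases h3 with h3 | h3 <;> rw [h3] at hJ ⊢
  · have : jacobiSym c2 l = -1 := by linarith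
    rw [this]
    ring
  · have : jacobiSym c2 l = 1 := by linarith
    rw [this]
    ring

end

end Pool.Agent.N969.BJ15
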