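import Pool.Agent.N969.BJ15.Same

/-!
# BILJ15: the product formula for two vectors of norm `l`
-/

set_option autoImplicit false

namespace Pool.Agent.N969.BJ15

open Finset
open Pool.Agent.Z700 (hh fac)
open Pool.Agent.N969.P15 (V3 ip vec rr rr0 cc cp cp3 loc loc3 locE loc3E Ev tw)
open Pool.Agent.N970.Sgn (Frm psi psi_mul sgp_sig iso_mul jac_eq)
open Pool.Agent.N844.P17G (Iso sig rel)
open Pool.Agent.N969.P17G (sgp)
open Pool.Agent.N973.P15 (mem_vec cauchy)
open Pool.Agent.N969.RQ (o5 s5)

theorem jac_prod {l : ℕ} [Fact l.Prime] {T : ℕ} (hT : T ≠ 0) :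
    jacobiSym (T : ℤ) l = ∏ p ∈ T.primeFactors, (jacobiSym (p : ℤ) l) ^ T.factorization p := by
  have h1 : T = ∏ p ∈ T.primeFactors, p ^ T.factorization p :=
    (Nat.factorization_prod_pow_eq_self hT).symm
  rw [jac_eq]
  conv_lhs => rw [h1]
  push_cast
  rw [map_prod]
  refine prod_congr rfl fun p _ => ?_
  rw [map_pow, jac_eq]
  push_cast
  rfl

theorem rec' {l p : ℕ} (h4 : l % 4 = 3) (hp : p % 2 = 1) :
    jacobiSym (-(l : ℤ)) p = jacobiSym p l := by
  have e : (-(l : ℤ)) = (-1) * l := by ring
  rw [e, jacobiSym.mul_left, jacobiSym.at_neg_one (Nat.odd_iff.2 hp)]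
  have h : p % 4 = 1 ∨ p % 4 = 3 := by omega
  rcases h with h | h
  · rw [ZMod.χ₄_nat_one_mod_four h, one_mul]
    exact (jacobiSym.quadratic_reciprocity_one_mod_four h (Nat.odd_iff.2 (by omega))).symm
  · rw [ZMod.χ₄_nat_three_mod_four h, jacobiSym.quadratic_reciprocity_three_mod_four h4 h]
    ring

/-- the value of `(T / l)` -/
theorem jac_T {l : ℕ} (h : Aux l) {T : ℕ} (h0 : 0 < T) (hT : T < l)
    (hloc : loc l (4 * (l - T) * T) ≠ 0) :
    jacobiSym (T : ℤ) l = if 5 ∣ T then -1 else 1 := by
  have : Fact l.Prime := ⟨h.prime⟩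
  have hS0 : 0 < l - T := by omega
  set D := 4 * (l - T) * T with hD
  have hD0 : D ≠ 0 := by positivity
  unfold loc at hloc
  have hodd : Odd (D.factorization 5) := by
    by_contra hc
    rw [if_neg hc] at hloc
    exact hloc rfl
  rw [if_pos hodd] at hloc
  have htw : tw l D ≠ 0 := fun hc => hloc (by rw [hc, zero_mul])
  have hfac : ∀ q ∈ (D.primeFactors.erase 2).erase 5, fac l D q ≠ 0 := fun q hq hc =>
    hloc (by rw [prod_eq_zero hq hc, mul_zero])
  -- the primes dividing `T` do not divide `S`
  have hnS : ∀ p : ℕ, p.Prime → p ∣ T → ¬ p ∣ l - T := by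
    intro p hp h1 h2
    have h3 : p ∣ l := by
      have := Nat.dvd_add h2 h1
      rwa [Nat.sub_add_cancel hT.le] at this
    have h4 := (Nat.prime_dvd_prime_iff_eq hp h.prime).1 h3
    have := Nat.le_of_dvd h0 h1
    omega
  have hfz : ∀ p : ℕ, p.Prime → p ∣ T → p ≠ 2 → D.factorization p = T.factorization p := by
    intro p hp h1 h2
    rw [hD, Nat.factorization_mul (by positivity) h0.ne', Nat.factorization_mul (by norm_num)
      hS0.ne', Finsupp.add_apply, Finsupp.add_apply,
      Nat.factorization_eq_zero_of_not_dvd (hnS p hp h1),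
      Nat.factorization_eq_zero_of_not_dvd]
    · ring
    · intro h3
      have h4 : p ∣ 2 ^ 2 := by simpa using h3
      exact h2 ((Nat.prime_dvd_prime_iff_eq hp Nat.prime_two).1 (hp.dvd_of_dvd_pow h4))
  have key : ∀ p ∈ T.primeFactors, (jacobiSym (p : ℤ) l) ^ T.factorization p =
      if p = 5 then -1 else 1 := by
    intro p hp
    have hpp := Nat.prime_of_mem_primeFactors hp
    have hpT := Nat.dvd_of_mem_primeFactors hp
    by_cases h5 : p = 5
    · subst h5
      rw [if_pos rfl]
      have := h.j5
      push_cast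
      rw [this, ← hfz 5 hpp hpT (by norm_num)]
      exact hodd.neg_one_pow
    · rw [if_neg h5]
      by_cases h2 : p = 2
      · subst h2
        have h8 : l % 8 = 3 ∨ l % 8 = 7 := by have := h.four; omega
        have hj : jacobiSym ((2 : ℕ) : ℤ) l = ZMod.χ₈ l := by
          push_cast
          exact jacobiSym.at_two (Nat.odd_iff.2 (by have := h.four; omega))
        rcases h8 with h8 | h8
        · have hv : D.factorization 2 = 2 + T.factorization 2 := by
            rw [hD, Nat.factorization_mul (by positivity) h0.ne', Nat.factorization_mul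
              (by norm_num) hS0.ne', Finsupp.add_apply, Finsupp.add_apply,
              Nat.factorization_eq_zero_of_not_dvd (hnS 2 hpp hpT)]
            have : (4 : ℕ).factorization 2 = 2 := by
              rw [show (4 : ℕ) = 2 ^ 2 from rfl, Nat.Prime.factorization_pow Nat.prime_two]
              simp
            rw [this]
          unfold tw at htw
          rw [if_neg (by omega), neg_one_geom_sum] at htw
          have he : ¬ Even (D.factorization 2 - 1) := fun hc => htw (by rw [if_pos hc])
          rw [Nat.not_even_iff_odd, hv] at he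
          have he2 : Even (T.factorization 2) := by
            rcases he with ⟨k, hk⟩
            exact ⟨k, by omega⟩
          rw [hj]
          have : ZMod.χ₈ (l : ZMod 8) = -1 := by
            have e : ((l : ℕ) : ZMod 8) = 3 := by
              have : ((l : ℕ) : ZMod 8) = ((l % 8 : ℕ) : ZMod 8) := (ZMod.natCast_mod l 8).symm
              rw [this, h8]
              rfl
            rw [e]
            decide
          rw [this]
          exact he2.neg_one_pow
        · rw [hj]
          have : ZMod.χ₈ (l : ZMod 8) = 1 := by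
            have e : ((l : ℕ) : ZMod 8) = 7 := by
              have : ((l : ℕ) : ZMod 8) = ((l % 8 : ℕ) : ZMod 8) := (ZMod.natCast_mod l 8).symm
              rw [this, h8]
              rfl
            rw [e]
            decide
          rw [this, one_pow]
      · have hpo : p % 2 = 1 := by
          rcases hpp.eq_two_or_odd with h3 | h3
          · exact absurd h3 h2
          · exact h3
        have hmem : p ∈ (D.primeFactors.erase 2).erase 5 :=
          mem_erase.2 ⟨h5, mem_erase.2 ⟨h2, Nat.mem_primeFactors.2 ⟨hpp, hpT.mul_left _, hD0⟩⟩⟩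
        have hf := hfac p hmem
        have hpl : ¬ p ∣ l := by
          intro h3
          have h4 := (Nat.prime_dvd_prime_iff_eq hpp h.prime).1 h3
          have := Nat.le_of_dvd h0 hpT
          omega
        unfold fac at hf
        rw [if_neg hpl, rec' h.four hpo, hfz p hpp hpT h2] at hf
        have hpm : jacobiSym (p : ℤ) l = 1 ∨ jacobiSym (p : ℤ) l = -1 := by
          rw [jac_eq]
          apply quadraticChar_dichotomy
          intro hc
          apply hpl
          have h3 : (l : ℤ) ∣ (p : ℤ) := (ZMod.intCast_zmod_eq_zero_iff_dvd _ _).1 hc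
          have h4 : l ∣ p := by exact_mod_cast h3
          rw [(Nat.prime_dvd_prime_iff_eq h.prime hpp).1 h4]
        rcases hpm with h6 | h6
        · rw [h6, one_pow]
        · rw [h6] at hf ⊢
          rw [neg_one_geom_sum] at hf
          have he : ¬ Even (T.factorization p + 1) := fun hc => hf (by rw [if_pos hc])
          rw [Nat.not_even_iff_odd] at he
          have he2 : Even (T.factorization p) := by
            rcases he with ⟨k, hk⟩
            exact ⟨k, by omega⟩
          exact he2.neg_one_pow
  rw [jac_prod h0.ne', prod_congr rfl key, prod_ite_eq' T.primeFactors 5 (fun _ => (-1 : ℤ))]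
  have hm : 5 ∈ T.primeFactors ↔ 5 ∣ T := by
    rw [Nat.mem_primeFactors]
    exact ⟨fun h => h.2.1, fun h => ⟨Nat.prime_five, h, h0.ne'⟩⟩
  by_cases h5 : 5 ∣ T
  · rw [if_pos (hm.2 h5), if_pos h5]
  · rw [if_neg (fun h' => h5 (hm.1 h')), if_neg h5]

theorem fz_pow (L : ZMod 5) (hL : L = 2 ∨ L = 3) : fz (L ^ 4) = 1 ∧ fz (-(L ^ 4)) = -1 := by
  rcases hL with rfl | rfl <;> decide

/-- **the product formula** -/
theorem pf {l : ℕ} (h : Aux l) {v w : V3} (hv : v ∈ vec (l : ℕ)) (hw : w ∈ vec (l : ℕ)) :
    xx l v * xx l w = 1 := by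
  have : Fact l.Prime := ⟨h.prime⟩
  have hv' := (mem_vec _ _).1 hv
  have hw' := (mem_vec _ _).1 hw
  have h1l : ¬ l ∣ 1 := fun h1 => h.prime.one_lt.ne' (Nat.dvd_one.1 h1)
  have hv1 : ip v v = (1 * l : ℕ) := by rw [one_mul]; exact hv'
  have hw1 : ip w w = (1 * l : ℕ) := by rw [one_mul]; exact hw'
  have h0 := ori_mul h.five (n := 1) (n' := 1) (Or.inl rfl) (Or.inl rfl) hv1 hw1
  have hs : s5 1 1 = 1 := by decide
  rw [hs, one_mul] at h0
  have hl2 : ¬ l ^ 2 ∣ l := by
    intro h1
    have := Nat.le_of_dvd h.prime.pos h1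
    have := h.prime.one_lt
    nlinarith
  -- the inner product
  have hc := cauchy v w
  have hd := d20 v w
  rw [hv', hw'] at hc hd
  have hpar : (2 : ℤ) ∣ l + ip v w := by
    have d2 : (2 : ℤ) ∣ (l + ip v w) * (l - ip v w) := by
      have : (l + ip v w) * (l - ip v w) = (l : ℤ) * l - ip v w ^ 2 := by ring
      rw [this]
      exact Dvd.dvd.trans (by norm_num) hd
    rcases Int.prime_two.dvd_or_dvd d2 with h | h
    · exact h
    · omega
  have hab := abs_le_of_sq_le_sq (by rw [pow_two (l : ℤ)]; exact hc : ip v w ^ 2 ≤ (l : ℤ) ^ 2)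
    (by positivity)
  rw [abs_le] at hab
  obtain ⟨T', hT'⟩ := hpar
  obtain ⟨T, rfl⟩ := Int.eq_ofNat_of_zero_le (a := T') (by omega)
  have hb : ip v w = 2 * (T : ℤ) - l := by linarith
  have hTl : T ≤ l := by omega
  have h1 := sgp_sig (p := l) frm h.ne2 h.ndvd10 (n := l) (k := 1) (dvd_refl _) hl2
    h1l hv' (by rw [hw']; ring)
    (iso_mul frm h1l hv1) (iso_mul frm h1l hw1) (T := (T : ℤ)) (by rw [hb]; push_cast; ring)
  rw [← psi_mul frm h.ne2 h.ndvd10 (iso_mul frm h1l hv1) (iso_mul frm h1l hw1)] at h1
  have hL : ((l : ℕ) : ZMod 5) = 2 ∨ ((l : ℕ) : ZMod 5) = 3 := by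
    rcases h.five with h | h
    · left; exact (nat_cast5 l 2 (by norm_num)).1 h
    · right; exact (nat_cast5 l 3 (by norm_num)).1 h
  have hgoal : sgp 1 l l T * o5 (ip v w * l ^ 3) = 1 := by
    have o1 : 5 ∣ T → o5 (ip v w * l ^ 3) = -1 := by
      rintro ⟨k, rfl⟩
      rw [hb, o5_fz]
      have h55 : (5 : ZMod 5) = 0 := by decide
      have e : (((2 * ((5 * k : ℕ) : ℤ) - l) * l ^ 3 : ℤ) : ZMod 5) = - ((l : ZMod 5) ^ 4) := by
        push_cast
        linear_combination (2 * (k : ZMod 5) * (l : ZMod 5) ^ 3) * h55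
      rw [e]
      exact (fz_pow _ hL).2
    have o2 : 5 ∣ l - T → o5 (ip v w * l ^ 3) = 1 := by
      intro hk
      obtain ⟨k, hk⟩ := hk
      rw [hb, o5_fz]
      have h55 : (5 : ZMod 5) = 0 := by decide
      have hk' : (T : ℤ) = l - 5 * k := by omega
      have e : (((2 * (T : ℤ) - l) * l ^ 3 : ℤ) : ZMod 5) = ((l : ZMod 5) ^ 4) := by
        rw [hk']
        push_cast
        linear_combination (-2 * (k : ZMod 5) * (l : ZMod 5) ^ 3) * h55
      rw [e]
      exact (fz_pow _ hL).1
    rcases Nat.eq_zero_or_pos T with h6 | h6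
    · subst h6
      rw [o1 (dvd_zero _)]
      unfold sgp
      rw [if_pos (by simp)]
      rw [if_pos (by simp)]
      have e : jacobiSym (-((1 : ℕ) : ℤ)) l = -1 := by
        rw [show (-((1 : ℕ) : ℤ)) = -1 by norm_num, jacobiSym.at_neg_one
          (Nat.odd_iff.2 (by have := h.four; omega)), ZMod.χ₄_nat_three_mod_four h.four]
      rw [e]
      norm_num
    · rcases Nat.lt_or_ge T l with h7 | h7
      · -- `0 < T < l`
        have hDD : ((4 * (l - T) * T : ℕ) : ℤ) = (l : ℤ) * l - (2 * (T : ℤ) - l) ^ 2 := by
          push_cast [Nat.cast_sub h7.le]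
          ring
        have hD0 : 0 < 4 * (l - T) * T := by
          have : 0 < l - T := by omega
          positivity
        have h5l : ¬ 5 ∣ l := by
          have := h.five
          omega
        have hPC := Pool.Agent.N972.PC15.t_PC l l (2 * (T : ℤ) - l) _ h.prime.squarefree h.four
          h5l hD0 hDD
        have hpos : 0 < cp l (2 * (T : ℤ) - l) l := by
          unfold cp
          apply card_pos.2
          exact ⟨(v, w), by rw [mem_filter, mem_product]; exact ⟨⟨hv, hw⟩, hb⟩⟩
        have hloc : loc l (4 * (l - T) * T) ≠ 0 := by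
          intro hc
          rw [hc, mul_zero] at hPC
          have : cp l (2 * (T : ℤ) - l) l = 0 := by exact_mod_cast hPC
          omega
        have hj := jac_T h h6 h7 hloc
        have hodd : Odd ((4 * (l - T) * T).factorization 5) := by
          unfold loc at hloc
          by_contra hc
          rw [if_neg hc] at hloc
          exact hloc rfl
        have h5D : 5 ∣ 4 * (l - T) * T := by
          by_contra hc
          rw [Nat.factorization_eq_zero_of_not_dvd hc] at hodd
          exact absurd hodd (by decide)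
        have hndl : ¬ (l : ℤ) ∣ T := by
          intro hc
          have h8 : l ∣ T := by exact_mod_cast hc
          have := Nat.le_of_dvd h6 h8
          omega
        unfold sgp
        rw [if_neg hndl, hj]
        by_cases h5T : 5 ∣ T
        · rw [if_pos h5T, o1 h5T]
          norm_num
        · rw [if_neg h5T, o2]
          · norm_num
          · rcases (Nat.Prime.dvd_mul Nat.prime_five).1 h5D with h8 | h8
            · rcases (Nat.Prime.dvd_mul Nat.prime_five).1 h8 with h9 | h9
              · omega
              · exact h9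
            · exact absurd h8 h5T
      · have h8 : T = l := le_antisymm hTl h7
        subst h8
        rw [o2 (by simp)]
        unfold sgp
        have hp0 : (T : ℤ) ≠ 0 := by exact_mod_cast h6.ne'
        have h9 : ((T : ℤ) / T) = 1 := Int.ediv_self hp0
        rw [if_pos (dvd_refl _), h9, if_neg (by
          intro hc
          have h10 : T ∣ 1 := by exact_mod_cast hc
          exact h1l h10)]
        have h11 : T / T = 1 := Nat.div_self h6
        simp [h11]
  unfold xx
  have e : psi ip l v * ori l v * (psi ip l w * ori l w) =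
      (psi ip l v * psi ip l w) * (ori l v * ori l w) := by ring
  rw [e, h0, ← h1]
  exact hgoal

end Pool.Agent.N969.BJ15
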