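import Pool.Agent.N969.BJ15.Conv
import Pool.Agent.N970.Sgn.Sgp
import Pool.Agent.N973.P15.BILE
import Pool.Agent.N575.P15.PCE

/-!
# BILJ15: the pairs of vectors of the same norm
-/

set_option autoImplicit false

namespace Pool.Agent.N969.BJ15

open Finset
open Pool.Agent.N969.P15 (V3 ip vec rr rr0 cc cp cp3 loc loc3 locE loc3E Ev)
open Pool.Agent.N970.Sgn (Frm psi psi_mul sgp_sig iso_mul)
open Pool.Agent.N844.P17G (Iso sig rel)
open Pool.Agent.N969.P17G (sgp)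
open Pool.Agent.N973.P15 (lam mu uu g3 s2 mem_vec ip_g3 ip_s2 ip_neg cast3 lam_cast cauchy sum_inv
  pair_eq four_pt s2_s2 mu_ne)
open Pool.Agent.N969.RQ (Fd R15 R15r o5 s5 sl ld15 ld15r)

/-- the sum over `T` as a sum over the pairs -/
theorem tsum (n : ℕ) (P : ℕ → Prop) [DecidablePred P] (good : ℤ → Prop) [DecidablePred good]
    (h1 : ∀ b : ℤ, good b → b ^ 2 ≤ (n : ℤ) ^ 2 → (2 : ℤ) ∣ n + b →
      ∃ T : ℕ, T < n ∧ P T ∧ b = 2 * (T : ℤ) - n)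
    (h2 : ∀ T : ℕ, T < n → P T → good (2 * (T : ℤ) - n)) (H : V3 × V3 → ℤ) :
    ∑ T ∈ (range n).filter P, ∑ q ∈ (vec (n : ℤ) ×ˢ vec (n : ℤ)).filter
      (fun q => ip q.1 q.2 = 2 * (T : ℤ) - n), H q =
    ∑ q ∈ (vec (n : ℤ) ×ˢ vec (n : ℤ)).filter (fun q => good (ip q.1 q.2)), H q := by
  have hpar : ∀ v ∈ vec (n : ℤ), ∀ w ∈ vec (n : ℤ), ip v w ^ 2 ≤ (n : ℤ) ^ 2 ∧
      (2 : ℤ) ∣ n + ip v w := by
    intro v hv w hw
    have c := cauchy v w
    have d := d20 v w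
    rw [(mem_vec _ _).1 hv, (mem_vec _ _).1 hw] at c d
    refine ⟨by rw [pow_two (n : ℤ)]; exact c, ?_⟩
    have d2 : (2 : ℤ) ∣ (n + ip v w) * (n - ip v w) := by
      have : (n + ip v w) * (n - ip v w) = (n : ℤ) * n - ip v w ^ 2 := by ring
      rw [this]
      exact Dvd.dvd.trans (by norm_num) d
    rcases Int.prime_two.dvd_or_dvd d2 with h | h
    · exact h
    · omega
  symm
  rw [← sum_fiberwise_of_maps_to (t := (range n).filter P)
    (g := fun q : V3 × V3 => ((n + ip q.1 q.2) / 2).toNat)]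
  · refine sum_congr rfl fun T hT => ?_
    rw [mem_filter, mem_range] at hT
    rw [filter_filter]
    refine sum_congr ?_ fun _ _ => rfl
    ext ⟨v, w⟩
    rw [mem_filter, mem_filter, mem_product]
    constructor
    · rintro ⟨⟨hv, hw⟩, hg, ht⟩
      refine ⟨⟨hv, hw⟩, ?_⟩
      obtain ⟨k1, k2⟩ := hpar v hv w hw
      obtain ⟨T', h3, h4, h5⟩ := h1 _ hg k1 k2
      show ip v w = 2 * (T : ℤ) - n
      have ht' : ((n + ip v w) / 2).toNat = T := ht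
      rw [h5] at ht' ⊢
      omega
    · rintro ⟨⟨hv, hw⟩, hb⟩
      have hb' : ip v w = 2 * (T : ℤ) - n := hb
      refine ⟨⟨hv, hw⟩, ?_, ?_⟩
      · show good (ip v w)
        rw [hb']
        exact h2 T hT.1 hT.2
      · show ((n + ip v w) / 2).toNat = T
        rw [hb']
        omega
  · rintro ⟨v, w⟩ hq
    rw [mem_filter, mem_product] at hq
    obtain ⟨⟨hv, hw⟩, hg⟩ := hq
    obtain ⟨k1, k2⟩ := hpar v hv w hw
    obtain ⟨T', h3, h4, h5⟩ := h1 _ hg k1 k2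
    show ((n + ip v w) / 2).toNat ∈ (range n).filter P
    have h5' : ip v w = 2 * (T' : ℤ) - n := h5
    have e : ((n + ip v w) / 2).toNat = T' := by rw [h5']; omega
    rw [e, mem_filter, mem_range]
    exact ⟨h3, h4⟩

section

variable {A l : ℕ} (h : Aux l) (hlA : ¬ l ∣ A) (hA : Fd A) (h5 : A % 5 = 1 ∨ A % 5 = 4)
include h hlA hA h5

theorem n5 : (A * l) % 5 = 2 ∨ (A * l) % 5 = 3 := by
  rw [Nat.mul_mod]
  rcases h5 with h1 | h1 <;> rcases h.five with h2 | h2 <;> rw [h1, h2] <;> omega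

/-- the weights of two vectors of the same norm -/
theorem same {v w : V3} (hv : v ∈ vec (A * l : ℕ)) (hw : w ∈ vec (A * l : ℕ)) {T : ℕ}
    (hT : ip v w = 2 * (T : ℤ) - (A * l : ℕ)) (h5T : 5 ∣ T) : xx l v * xx l w = sl A l T := by
  have : Fact l.Prime := ⟨h.prime⟩
  have hv' := (mem_vec _ _).1 hv
  have hw' := (mem_vec _ _).1 hw
  have h0 := ori_mul h.five h5 h5 hv' hw'
  have hl2 : ¬ l ^ 2 ∣ A * l := by
    intro h1
    rw [pow_two] at h1
    exact hlA (Nat.dvd_of_mul_dvd_mul_right h.prime.pos h1)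
  have h1 := sgp_sig (p := l) frm h.ne2 h.ndvd10 (n := A * l) (k := 1) (dvd_mul_left _ _) hl2
    (fun h1 => h.prime.one_lt.ne' (Nat.dvd_one.1 h1)) hv' (by rw [hw']; ring)
    (iso_mul frm hlA hv') (iso_mul frm hlA hw') (T := (T : ℤ)) (by rw [hT]; push_cast; ring)
  unfold sl
  rw [h1, ← psi_mul frm h.ne2 h.ndvd10 (iso_mul frm hlA hv') (iso_mul frm hlA hw')]
  have h2 : s5 A A * o5 (ip v w * l ^ 3) = -1 := by
    rw [hT, o5_fz]
    obtain ⟨k, rfl⟩ := h5T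
    have h55 : (5 : ZMod 5) = 0 := by decide
    have e : (((2 * ((5 * k : ℕ) : ℤ) - (A * l : ℕ)) * l ^ 3 : ℤ) : ZMod 5) =
        - ((A : ZMod 5) * (l : ZMod 5) ^ 4) := by
      push_cast
      linear_combination (2 * (k : ZMod 5) * (l : ZMod 5) ^ 3) * h55
    rw [e]
    have hL : ((l : ℕ) : ZMod 5) = 2 ∨ ((l : ℕ) : ZMod 5) = 3 := by
      rcases h.five with h | h
      · left; exact (nat_cast5 l 2 (by norm_num)).1 h
      · right; exact (nat_cast5 l 3 (by norm_num)).1 h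
    have hAA : ((A : ℕ) : ZMod 5) = 1 ∨ ((A : ℕ) : ZMod 5) = 4 := by
      rcases h5 with h | h
      · left; simpa using (nat_cast5 A 1 (by norm_num)).1 h
      · right; exact (nat_cast5 A 4 (by norm_num)).1 h
    unfold s5
    rcases h5 with h3 | h3
    · rw [if_neg (by omega)]
      have h4 : ((A : ℕ) : ZMod 5) = 1 := by simpa using (nat_cast5 A 1 (by norm_num)).1 h3
      rw [h4]
      rcases hL with hL | hL <;> rw [hL] <;> decide
    · rw [if_pos ⟨h3, h3⟩]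
      have h4 : ((A : ℕ) : ZMod 5) = 4 := (nat_cast5 A 4 (by norm_num)).1 h3
      rw [h4]
      rcases hL with hL | hL <;> rw [hL] <;> decide
  rw [h2] at h0
  unfold xx
  linear_combination (psi ip l v * psi ip l w) * h0

theorem fn : (Squarefree (A * l) ∧ (A * l) % 4 = 3) ∨ Ev (A * l) := by
  have hF : Pool.Agent.N877.P21G.Fn l := Or.inl ⟨h.prime.squarefree, h.four⟩
  have hc : Nat.Coprime A l := ((Nat.Prime.coprime_iff_not_dvd h.prime).2 hlA).symm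
  exact (Pool.Agent.N871.G21.Fn_mul (Or.inr hA) hF hc).1

/-- the local densities and the pair counts -/
theorem ld_cp {T : ℕ} (hT0 : 0 < T) (hT : T < A * l) (hA3 : A % 3 = 1)
    (h3 : 3 ∣ A * l - T) : 12 * ld15 (A * l) T =
    (cp (A * l : ℕ) (2 * (T : ℤ) - (A * l : ℕ)) (A * l : ℕ) : ℤ) +
      cp3 (A * l : ℕ) (2 * (T : ℤ) - (A * l : ℕ)) (A * l : ℕ) := by
  have h55 := n5 h hlA hA h5
  have hfn := fn h hlA hA h5
  have hn3 : (A * l) % 3 = 2 := by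
    have := h.three
    rw [Nat.mul_mod, this, hA3]
  generalize A * l = n at *
  have hb : ¬ (3 : ℤ) ∣ 2 * (T : ℤ) - (n : ℕ) := by omega
  have hD : 0 < 4 * (n - T) * T := by
    have : 0 < n - T := by omega
    positivity
  have hDD : ((4 * (n - T) * T : ℕ) : ℤ) = (n : ℤ) * n - (2 * (T : ℤ) - n) ^ 2 := by
    push_cast [Nat.cast_sub hT.le]
    ring
  unfold ld15
  rcases hfn with ⟨hs, h4⟩ | hE
  · rw [if_neg (by omega)]
    exact (Pool.Agent.N871.P15.s_CP3 n n _ _ hs h4 hn3 hn3 (by omega) hb hD hDD).symm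
  · have h4 : 4 ∣ n := by
      obtain ⟨m, rfl, -⟩ := hE
      exact dvd_mul_right _ _
    rw [if_pos (Dvd.dvd.trans (by norm_num) h4)]
    have e : (T : ℤ) - ((n - T : ℕ) : ℤ) = 2 * (T : ℤ) - n := by
      rw [Nat.cast_sub hT.le]
      ring
    rw [e]
    exact (Pool.Agent.N973.P15.t_CP3E Pool.Agent.N575.P15.PCE.t_PCE n n _ _ hE h55 hn3 h4 hn3 hb hD
      hDD).symm

theorem ldr_cp {T : ℕ} (hT0 : 0 < T) (hT : T < A * l) : 6 * ld15r (A * l) T =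
    (cp (A * l : ℕ) (2 * (T : ℤ) - (A * l : ℕ)) (A * l : ℕ) : ℤ) := by
  have h55 := n5 h hlA hA h5
  have hfn := fn h hlA hA h5
  generalize A * l = n at *
  have hD : 0 < 4 * (n - T) * T := by
    have : 0 < n - T := by omega
    positivity
  have hDD : ((4 * (n - T) * T : ℕ) : ℤ) = (n : ℤ) * n - (2 * (T : ℤ) - n) ^ 2 := by
    push_cast [Nat.cast_sub hT.le]
    ring
  unfold ld15r
  rcases hfn with ⟨hs, h4⟩ | hE
  · rw [if_neg (by omega)]
    exact (Pool.Agent.N972.PC15.t_PC n n _ _ hs h4 (by omega) hD hDD).symm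
  · have h4 : 4 ∣ n := by
      obtain ⟨m, rfl, -⟩ := hE
      exact dvd_mul_right _ _
    rw [if_pos (Dvd.dvd.trans (by norm_num) h4)]
    have e : (T : ℤ) - ((n - T : ℕ) : ℤ) = 2 * (T : ℤ) - n := by
      rw [Nat.cast_sub hT.le]
      ring
    rw [e]
    exact (Pool.Agent.N575.P15.PCE.t_PCE n n _ _ hE h55 h4 hD hDD).symm

/-- the four signs -/
theorem four (hA3 : A % 3 = 1) {r5 : ℤ} (hr5 : 0 < r5) (hr5' : r5 < 5)
    (hr : (5 : ℤ) ∣ r5 ^ 2 - (A * l : ℕ) * (A * l : ℕ)) (i : Fin 4) :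
    4 * ∑ v ∈ vec (A * l : ℕ), ∑ w ∈ vec (A * l : ℕ),
      xx l v * xx l w * (if Pool.Agent.N973.P15.PP i 2 r5 v w then (1 : ℤ) else 0) =
    Xi l i A * Xi l i A := by
  have hn3 : (A * l) % 3 = 2 := by
    have := h.three
    rw [Nat.mul_mod, this, hA3]
  have key : ∀ w ∈ vec (A * l : ℕ), 4 * ∑ v ∈ vec (A * l : ℕ),
      xx l v * (if Pool.Agent.N973.P15.PP i 2 r5 v w then (1 : ℤ) else 0) =
      ∑ v ∈ vec (A * l : ℕ), xx l v *
        (if (3 : ℤ) ∣ lam i v ∧ (3 : ℤ) ∣ lam i w then 1 else 0) := by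
    intro w hw
    have k1 := sum_inv (A * l : ℕ) (fun v => -v) (fun v => -v) (fun v => ip_neg v v)
      (fun v => ip_neg v v) (fun v => neg_neg v) (fun v => neg_neg v)
      (fun v => xx l v * (if Pool.Agent.N973.P15.PP i 2 r5 v w then (1 : ℤ) else 0))
    have k2 := sum_inv (A * l : ℕ) (s2 i) (s2 i) (fun v => ip_s2 i v v) (fun v => ip_s2 i v v)
      (fun v => s2_s2 i v) (fun v => s2_s2 i v)
      (fun v => xx l v * (if Pool.Agent.N973.P15.PP i 2 r5 v w then (1 : ℤ) else 0))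
    have k3 := sum_inv (A * l : ℕ) (s2 i) (s2 i) (fun v => ip_s2 i v v) (fun v => ip_s2 i v v)
      (fun v => s2_s2 i v) (fun v => s2_s2 i v)
      (fun v => xx l (-v) * (if Pool.Agent.N973.P15.PP i 2 r5 (-v) w then (1 : ℤ) else 0))
    have e1 : ∑ v ∈ vec (A * l : ℕ), xx l v *
        (if (3 : ℤ) ∣ lam i v ∧ (3 : ℤ) ∣ lam i w then (1 : ℤ) else 0) =
        ∑ v ∈ vec (A * l : ℕ), (xx l v * (if Pool.Agent.N973.P15.PP i 2 r5 v w then (1 : ℤ) else 0) +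
          xx l (-v) * (if Pool.Agent.N973.P15.PP i 2 r5 (-v) w then (1 : ℤ) else 0) +
          xx l (s2 i v) * (if Pool.Agent.N973.P15.PP i 2 r5 (s2 i v) w then (1 : ℤ) else 0) +
          xx l (-(s2 i v)) *
            (if Pool.Agent.N973.P15.PP i 2 r5 (-(s2 i v)) w then (1 : ℤ) else 0)) := by
      refine sum_congr rfl fun v hv => ?_
      have hs : s2 i v ∈ vec (A * l : ℕ) := by
        rw [mem_vec] at hv ⊢
        rw [ip_s2, hv]
      rw [xx_neg h hlA hv, xx_s2 h hlA i hv, xx_neg h hlA hs, xx_s2 h hlA i hv,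
        ← four_pt hn3 hn3 (Or.inr rfl) hr5 hr5' hr hv hw i]
      ring
    rw [e1, sum_add_distrib, sum_add_distrib, sum_add_distrib]
    linarith
  have e2 : ∑ v ∈ vec (A * l : ℕ), ∑ w ∈ vec (A * l : ℕ),
      xx l v * xx l w * (if Pool.Agent.N973.P15.PP i 2 r5 v w then (1 : ℤ) else 0) =
      ∑ w ∈ vec (A * l : ℕ), xx l w * ∑ v ∈ vec (A * l : ℕ),
        xx l v * (if Pool.Agent.N973.P15.PP i 2 r5 v w then (1 : ℤ) else 0) := by
    rw [Finset.sum_comm]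
    refine sum_congr rfl fun w _ => ?_
    rw [mul_sum]
    exact sum_congr rfl fun v _ => by ring
  rw [e2, mul_sum]
  have e3 : ∀ w ∈ vec (A * l : ℕ), 4 * (xx l w * ∑ v ∈ vec (A * l : ℕ),
        xx l v * (if Pool.Agent.N973.P15.PP i 2 r5 v w then (1 : ℤ) else 0)) =
      (if (3 : ℤ) ∣ lam i w then xx l w else 0) * Xi l i A := by
    intro w hw
    have e4 : 4 * (xx l w * ∑ v ∈ vec (A * l : ℕ),
        xx l v * (if Pool.Agent.N973.P15.PP i 2 r5 v w then (1 : ℤ) else 0)) =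
        xx l w * (4 * ∑ v ∈ vec (A * l : ℕ),
        xx l v * (if Pool.Agent.N973.P15.PP i 2 r5 v w then (1 : ℤ) else 0)) := by ring
    rw [e4, key w hw, mul_sum]
    unfold Xi
    rw [mul_sum]
    refine sum_congr rfl fun v _ => ?_
    by_cases ha : (3 : ℤ) ∣ lam i v <;> by_cases hb : (3 : ℤ) ∣ lam i w <;> simp [ha, hb]
  rw [sum_congr rfl e3, ← sum_mul]
  rfl

/-- **the same norm, `3 ∤ A`** -/
theorem same15 (hA3 : A % 3 = 1) :
    144 * ∑ T ∈ (range (A * l)).filter (fun T => 5 ∣ T ∧ 3 ∣ A * l - T),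
      sl A l T * ld15 (A * l) T = 3 * Rr l A ^ 2 + Zz l A ^ 2 := by
  have h55 := n5 h hlA hA h5
  have hn3 : (A * l) % 3 = 2 := by
    have := h.three
    rw [Nat.mul_mod, this, hA3]
  obtain ⟨r5, hr1, hr2, hr3⟩ : ∃ r5 : ℤ, 0 < r5 ∧ r5 < 5 ∧ (5 : ℤ) ∣ r5 + (A * l : ℕ) := by
    refine ⟨(-((A * l : ℕ) : ℤ)) % 5, ?_, ?_, ?_⟩ <;> omega
  have hr : (5 : ℤ) ∣ r5 ^ 2 - (A * l : ℕ) * (A * l : ℕ) := by
    have : r5 ^ 2 - ((A * l : ℕ) : ℤ) * (A * l : ℕ) = (r5 + (A * l : ℕ)) * (r5 - (A * l : ℕ)) := by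
      ring
    rw [this]
    exact hr3.mul_right _
  have e1 : ∀ T ∈ (range (A * l)).filter (fun T => 5 ∣ T ∧ 3 ∣ A * l - T),
      12 * (sl A l T * ld15 (A * l) T) =
      ∑ q ∈ (vec ((A * l : ℕ) : ℤ) ×ˢ vec ((A * l : ℕ) : ℤ)).filter
        (fun q => ip q.1 q.2 = 2 * (T : ℤ) - (A * l : ℕ)),
        xx l q.1 * xx l q.2 * (1 + if ∀ i, (3 : ℤ) ∣ q.1 i + ip q.1 q.2 * q.2 i then 1 else 0) := by
    intro T hT
    rw [mem_filter, mem_range] at hT
    obtain ⟨hT, h5T, h3T⟩ := hT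
    rcases Nat.eq_zero_or_pos T with rfl | hT0
    · exfalso
      rw [Nat.sub_zero] at h3T
      omega
    · have e2 : ∀ q ∈ (vec ((A * l : ℕ) : ℤ) ×ˢ vec ((A * l : ℕ) : ℤ)).filter
          (fun q => ip q.1 q.2 = 2 * (T : ℤ) - (A * l : ℕ)),
          xx l q.1 * xx l q.2 * (1 + if ∀ i, (3 : ℤ) ∣ q.1 i + ip q.1 q.2 * q.2 i then 1 else 0) =
          sl A l T * (1 + if ∀ i, (3 : ℤ) ∣ q.1 i + (2 * (T : ℤ) - (A * l : ℕ)) * q.2 i
            then 1 else 0) := by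
        rintro ⟨v, w⟩ hq
        rw [mem_filter, mem_product] at hq
        obtain ⟨⟨hv, hw⟩, hb⟩ := hq
        simp only at hv hw hb ⊢
        rw [same h hlA hA h5 hv hw hb h5T, hb]
      rw [sum_congr rfl e2, ← mul_sum, sum_add_distrib, HH.cp_sum]
      have e3 : ∑ q ∈ (vec ((A * l : ℕ) : ℤ) ×ˢ vec ((A * l : ℕ) : ℤ)).filter
          (fun q => ip q.1 q.2 = 2 * (T : ℤ) - (A * l : ℕ)),
          (if ∀ i, (3 : ℤ) ∣ q.1 i + (2 * (T : ℤ) - (A * l : ℕ)) * q.2 i then (1 : ℤ) else 0) =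
          cp3 (A * l : ℕ) (2 * (T : ℤ) - (A * l : ℕ)) (A * l : ℕ) := by
        unfold cp3
        rw [card_filter, sum_filter]
        push_cast
        refine sum_congr rfl fun q _ => ?_
        by_cases h6 : ip q.1 q.2 = 2 * (T : ℤ) - (A : ℤ) * l <;> simp [h6]
      rw [e3, ← ld_cp h hlA hA h5 hT0 hT hA3 h3T]
      ring
  have e4 : 12 * ∑ T ∈ (range (A * l)).filter (fun T => 5 ∣ T ∧ 3 ∣ A * l - T),
      sl A l T * ld15 (A * l) T =
      ∑ q ∈ (vec ((A * l : ℕ) : ℤ) ×ˢ vec ((A * l : ℕ) : ℤ)).filter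
        (fun q => ip q.1 q.2 % 3 = 2 ∧ ip q.1 q.2 % 5 = r5),
        xx l q.1 * xx l q.2 *
          (1 + if ∀ i, (3 : ℤ) ∣ q.1 i + ip q.1 q.2 * q.2 i then 1 else 0) := by
    rw [mul_sum, sum_congr rfl e1]
    refine tsum (A * l) (fun T => 5 ∣ T ∧ 3 ∣ A * l - T) (fun b => b % 3 = 2 ∧ b % 5 = r5) ?_ ?_ _
    · intro b hb hb2 hb3
      generalize A * l = n at *
      obtain ⟨T, hT⟩ := hb3
      have hab := abs_le_of_sq_le_sq hb2 (by positivity)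
      rw [abs_le] at hab
      obtain ⟨T', rfl⟩ := Int.eq_ofNat_of_zero_le (a := T) (by omega)
      exact ⟨T', by omega, ⟨by omega, by omega⟩, by omega⟩
    · intro T hT hP
      generalize A * l = n at *
      omega
  have e5 : ∑ q ∈ (vec ((A * l : ℕ) : ℤ) ×ˢ vec ((A * l : ℕ) : ℤ)).filter
        (fun q => ip q.1 q.2 % 3 = 2 ∧ ip q.1 q.2 % 5 = r5),
        xx l q.1 * xx l q.2 *
          (1 + if ∀ i, (3 : ℤ) ∣ q.1 i + ip q.1 q.2 * q.2 i then 1 else 0) =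
      ∑ i : Fin 4, ∑ v ∈ vec (A * l : ℕ), ∑ w ∈ vec (A * l : ℕ),
      xx l v * xx l w * (if Pool.Agent.N973.P15.PP i 2 r5 v w then (1 : ℤ) else 0) := by
    rw [sum_filter, sum_product]
    rw [Finset.sum_comm (s := (univ : Finset (Fin 4)))]
    refine sum_congr rfl fun v hv => ?_
    rw [Finset.sum_comm (s := (univ : Finset (Fin 4)))]
    refine sum_congr rfl fun w hw => ?_
    rw [← mul_sum, ← pair_eq hn3 hn3 (Or.inr rfl) hr1 hr2 hv hw]
    show (if ip v w % 3 = 2 ∧ ip v w % 5 = r5 then xx l v * xx l w *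
      (1 + if ∀ i, (3 : ℤ) ∣ v i + ip v w * w i then 1 else 0) else 0) = _
    by_cases h6 : ip v w % 3 = 2 ∧ ip v w % 5 = r5
    · rw [if_pos h6, if_pos h6]
      by_cases h7 : ∀ i, (3 : ℤ) ∣ v i + ip v w * w i
      · rw [if_pos h7, if_pos ⟨h6, h7⟩]
      · rw [if_neg h7, if_neg (fun h8 => h7 h8.2)]
    · rw [if_neg h6, if_neg h6, if_neg (fun h8 => h6 h8.1)]
      ring
  have e6 := fun i => four h hlA hA h5 hA3 hr1 hr2 hr i
  have e7 : 4 * ∑ i : Fin 4, ∑ v ∈ vec (A * l : ℕ), ∑ w ∈ vec (A * l : ℕ),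
      xx l v * xx l w * (if Pool.Agent.N973.P15.PP i 2 r5 v w then (1 : ℤ) else 0) =
      ∑ i : Fin 4, Xi l i A * Xi l i A := by
    rw [mul_sum]
    exact sum_congr rfl fun i _ => e6 i
  have hN : Nm (A * l) := Or.inl hn3
  have k1 := Xi_sum h hlA hN
  have c1 : cf A = 2 := by unfold cf; rw [if_neg (by omega)]
  have c2 : nu (A * l) = 2 := by unfold nu; rw [if_neg (by omega)]
  rw [Fin.sum_univ_four (f := fun i => Xi l i A * Xi l i A), (Xi_eq h hlA).1,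
    (Xi_eq h hlA).2] at e7
  rw [e5] at e4
  unfold Zz
  rw [c1]
  rw [c2] at k1
  have k2 : 3 * Xi l 1 A = 2 * Rr l A - Xi l 0 A := by linarith
  have k3 : (3 * Xi l 1 A) * (3 * Xi l 1 A) = (2 * Rr l A - Xi l 0 A) * (2 * Rr l A - Xi l 0 A) := by
    rw [k2]
  linear_combination 12 * e4 + 3 * e7 + k3

/-- **the same norm, `3 ∣ A`** -/
theorem same15r (hA3 : 3 ∣ A) (hA9 : ¬ 9 ∣ A) :
    144 * ∑ T ∈ (range (A * l)).filter (fun T => 5 ∣ T ∧ ¬ 3 ∣ T),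
      sl A l T * ld15r (A * l) T = 9 * Rr l A ^ 2 - Zz l A ^ 2 := by
  have h55 := n5 h hlA hA h5
  have hn3 : 3 ∣ A * l := hA3.mul_right _
  have hn9 : ¬ 9 ∣ A * l := by
    intro hd
    apply hA9
    refine Nat.Coprime.dvd_of_dvd_mul_right ?_ hd
    rw [show (9 : ℕ) = 3 ^ 2 from rfl]
    refine Nat.Coprime.pow_left 2 ((Nat.Prime.coprime_iff_not_dvd Nat.prime_three).2 ?_)
    have := h.three
    omega
  obtain ⟨r5, hr1, hr2, hr3⟩ : ∃ r5 : ℤ, 0 < r5 ∧ r5 < 5 ∧ (5 : ℤ) ∣ r5 + (A * l : ℕ) := by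
    refine ⟨(-((A * l : ℕ) : ℤ)) % 5, ?_, ?_, ?_⟩ <;> omega
  have e1 : ∀ T ∈ (range (A * l)).filter (fun T => 5 ∣ T ∧ ¬ 3 ∣ T),
      6 * (sl A l T * ld15r (A * l) T) =
      ∑ q ∈ (vec ((A * l : ℕ) : ℤ) ×ˢ vec ((A * l : ℕ) : ℤ)).filter
        (fun q => ip q.1 q.2 = 2 * (T : ℤ) - (A * l : ℕ)), xx l q.1 * xx l q.2 := by
    intro T hT
    rw [mem_filter, mem_range] at hT
    obtain ⟨hT, h5T, h3T⟩ := hT
    have hT0 : 0 < T := Nat.pos_of_ne_zero (by rintro rfl; exact h3T (dvd_zero _))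
    have e2 : ∀ q ∈ (vec ((A * l : ℕ) : ℤ) ×ˢ vec ((A * l : ℕ) : ℤ)).filter
        (fun q => ip q.1 q.2 = 2 * (T : ℤ) - (A * l : ℕ)), xx l q.1 * xx l q.2 =
        sl A l T * 1 := by
      rintro ⟨v, w⟩ hq
      rw [mem_filter, mem_product] at hq
      obtain ⟨⟨hv, hw⟩, hb⟩ := hq
      simp only at hv hw hb ⊢
      rw [same h hlA hA h5 hv hw hb h5T, mul_one]
    rw [sum_congr rfl e2, ← mul_sum, HH.cp_sum, ← ldr_cp h hlA hA h5 hT0 hT]
    ring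
  have e4 : 6 * ∑ T ∈ (range (A * l)).filter (fun T => 5 ∣ T ∧ ¬ 3 ∣ T),
      sl A l T * ld15r (A * l) T =
      ∑ q ∈ (vec ((A * l : ℕ) : ℤ) ×ˢ vec ((A * l : ℕ) : ℤ)).filter
        (fun q => ¬ (3 : ℤ) ∣ ip q.1 q.2 ∧ ip q.1 q.2 % 5 = r5), xx l q.1 * xx l q.2 := by
    rw [mul_sum, sum_congr rfl e1]
    refine tsum (A * l) (fun T => 5 ∣ T ∧ ¬ 3 ∣ T) (fun b => ¬ (3 : ℤ) ∣ b ∧ b % 5 = r5) ?_ ?_ _
    · intro b hb hb2 hb3
      generalize A * l = n at *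
      obtain ⟨T, hT⟩ := hb3
      have hab := abs_le_of_sq_le_sq hb2 (by positivity)
      rw [abs_le] at hab
      obtain ⟨T', rfl⟩ := Int.eq_ofNat_of_zero_le (a := T) (by omega)
      exact ⟨T', by omega, ⟨by omega, by omega⟩, by omega⟩
    · intro T hT hP
      generalize A * l = n at *
      omega
  -- the symmetry `v → - v`
  have hpm : ∀ v ∈ vec (A * l : ℕ), ∀ w ∈ vec (A * l : ℕ),
      (if ¬ (3 : ℤ) ∣ ip v w ∧ ip v w % 5 = r5 then (1 : ℤ) else 0) +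
      (if ¬ (3 : ℤ) ∣ ip (-v) w ∧ ip (-v) w % 5 = r5 then (1 : ℤ) else 0) =
      1 - Ph v w := by
    intro v hv w hw
    rw [ip_negl, Ph_iso hn3 hn9 hv]
    have h20 := d20 v w
    rw [(mem_vec _ _).1 hv, (mem_vec _ _).1 hw] at h20
    have h6 : (5 : ℤ) ∣ (ip v w - r5) * (ip v w + r5) := by
      have e : (ip v w - r5) * (ip v w + r5) = -(((A * l : ℕ) : ℤ) * (A * l : ℕ) - ip v w ^ 2) +
        ((A * l : ℕ) - r5) * (r5 + (A * l : ℕ)) := by ring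
      rw [e]
      exact dvd_add ((dvd_neg).2 (Dvd.dvd.trans (by norm_num) h20)) (hr3.mul_left _)
    generalize ip v w = b at *
    have h7 : (5 : ℤ) ∣ b - r5 ∨ (5 : ℤ) ∣ b + r5 := Int.Prime.dvd_mul' (by norm_num) h6
    by_cases h8 : (3 : ℤ) ∣ b
    · rw [if_neg (fun h9 => h9.1 h8), if_neg (fun h9 => h9.1 (dvd_neg.2 h8)), if_pos h8]
      norm_num
    · rw [if_neg h8]
      have h9 : ¬ (3 : ℤ) ∣ -b := fun h9 => h8 (dvd_neg.1 h9)
      rcases h7 with h7 | h7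
      · rw [if_pos ⟨h8, by omega⟩, if_neg (fun h10 => by have := h10.2; omega)]
        norm_num
      · rw [if_neg (fun h10 => by have := h10.2; omega), if_pos ⟨h9, by omega⟩]
        norm_num
  have e5 : ∑ q ∈ (vec ((A * l : ℕ) : ℤ) ×ˢ vec ((A * l : ℕ) : ℤ)).filter
        (fun q => ¬ (3 : ℤ) ∣ ip q.1 q.2 ∧ ip q.1 q.2 % 5 = r5), xx l q.1 * xx l q.2 =
      ∑ w ∈ vec (A * l : ℕ), ∑ v ∈ vec (A * l : ℕ), xx l v * xx l w *
        (if ¬ (3 : ℤ) ∣ ip v w ∧ ip v w % 5 = r5 then (1 : ℤ) else 0) := by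
    rw [sum_filter, sum_product, Finset.sum_comm]
    refine sum_congr rfl fun w _ => sum_congr rfl fun v _ => ?_
    show (if ¬ (3 : ℤ) ∣ ip v w ∧ ip v w % 5 = r5 then xx l v * xx l w else 0) = _
    split_ifs <;> ring
  have e6 : 2 * ∑ w ∈ vec (A * l : ℕ), ∑ v ∈ vec (A * l : ℕ), xx l v * xx l w *
        (if ¬ (3 : ℤ) ∣ ip v w ∧ ip v w % 5 = r5 then (1 : ℤ) else 0) =
      ∑ v ∈ vec (A * l : ℕ), ∑ w ∈ vec (A * l : ℕ), xx l v * xx l w * (1 - Ph v w) := by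
    rw [Finset.sum_comm (s := vec (A * l : ℕ)) (t := vec (A * l : ℕ))
      (f := fun v w => xx l v * xx l w * (1 - Ph v w)), mul_sum]
    refine sum_congr rfl fun w hw => ?_
    have k1 := sum_inv (A * l : ℕ) (fun v => -v) (fun v => -v) (fun v => ip_neg v v)
      (fun v => ip_neg v v) (fun v => neg_neg v) (fun v => neg_neg v)
      (fun v => xx l v * xx l w *
        (if ¬ (3 : ℤ) ∣ ip v w ∧ ip v w % 5 = r5 then (1 : ℤ) else 0))
    have k2 : 2 * ∑ v ∈ vec (A * l : ℕ), xx l v * xx l w *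
        (if ¬ (3 : ℤ) ∣ ip v w ∧ ip v w % 5 = r5 then (1 : ℤ) else 0) =
        ∑ v ∈ vec (A * l : ℕ), xx l v * xx l w *
        (if ¬ (3 : ℤ) ∣ ip v w ∧ ip v w % 5 = r5 then (1 : ℤ) else 0) +
        ∑ v ∈ vec (A * l : ℕ), xx l (-v) * xx l w *
        (if ¬ (3 : ℤ) ∣ ip (-v) w ∧ ip (-v) w % 5 = r5 then (1 : ℤ) else 0) := by
      rw [k1]
      ring
    rw [k2, ← sum_add_distrib]
    refine sum_congr rfl fun v hv => ?_
    rw [xx_neg h hlA hv, ← hpm v hv w hw]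
    ring
  have hN : Nm (A * l) := Or.inr ⟨hn3, hn9⟩
  have k1 := pair_sum h hlA hlA hN hN
  have c2 : nu (A * l) = 1 := by unfold nu; rw [if_pos hn3]
  rw [c2] at k1
  have e7 : ∑ v ∈ vec (A * l : ℕ), ∑ w ∈ vec (A * l : ℕ), xx l v * xx l w * (1 - Ph v w) =
      Rr l A * Rr l A - ∑ v ∈ vec (A * l : ℕ), ∑ w ∈ vec (A * l : ℕ),
        xx l v * xx l w * Ph v w := by
    unfold Rr
    rw [sum_mul_sum, ← sum_sub_distrib]
    refine sum_congr rfl fun v _ => ?_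
    rw [← sum_sub_distrib]
    exact sum_congr rfl fun w _ => by ring
  rw [e5] at e4
  rw [e7] at e6
  linear_combination 24 * e4 + 12 * e6 - k1

end

end Pool.Agent.N969.BJ15
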