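import Pool.Agent.N970.Sgn.Psi
import Pool.Agent.N973.P15.REL22
import Pool.Agent.N969.RQ.Defs6
import Pool.Agent.N218.RQ.Rel

/-!
# BILJ15: the sign of the vectors of norm `n l`
-/

set_option autoImplicit false

namespace Pool.Agent.N969.BJ15

open Finset
open Pool.Agent.N969.P15 (V3 ip vec rr rr0 cc)
open Pool.Agent.N970.Sgn
open Pool.Agent.N844.P17G (Iso sig rel)
open Pool.Agent.N973.P15 (lam mu uu g3 s2 mem_vec ip_g3 ip_s2 ip_neg g3_g3 s2_s2 lam_neg lam_s2 lam_g3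
  uu_neg uu_s2 ip_uu sum_inv)
open Pool.Agent.N969.RQ (o5 s5)

theorem frm : Frm ip 10 where
  symm := by intro v w; unfold ip; ring
  lin := by
    intro u v w x y
    simp only [ip, Pi.add_apply, Pi.smul_apply, smul_eq_mul]
    ring
  gram := by
    intro u v w
    simp only [ip, det3]
    ring

/-! ### the orientation at `5` -/

/-- the orientation as a function on `ZMod 5` -/
def fz (a : ZMod 5) : ℤ := if a = 0 then 0 else if a = 1 ∨ a = 2 then 1 else -1

theorem cast5 (x : ℤ) : (5 : ℤ) ∣ x ↔ (x : ZMod 5) = 0 :=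
  (ZMod.intCast_zmod_eq_zero_iff_dvd x 5).symm

theorem o5_fz (a : ℤ) : o5 a = fz a := by
  have h : ∀ k : ℤ, a % 5 = k → ((a : ℤ) : ZMod 5) = (k : ZMod 5) := by
    intro k hk
    have : (5 : ℤ) ∣ a - k := by omega
    rw [cast5] at this
    push_cast at this
    linear_combination this
  have h1 : a % 5 = 0 ∨ a % 5 = 1 ∨ a % 5 = 2 ∨ a % 5 = 3 ∨ a % 5 = 4 := by omega
  unfold o5
  rcases h1 with h1 | h1 | h1 | h1 | h1 <;> rw [h _ h1, h1] <;> decide

/-- the orientation of a vector -/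
noncomputable def ori (l : ℕ) (v : V3) : ℤ := o5 ((l - 1 : ℤ) * uu v)

theorem ori_key (u u' n n' L : ZMod 5) (hL : L = 2 ∨ L = 3) (hn : n = 1 ∨ n = 4)
    (hn' : n' = 1 ∨ n' = 4) : 2 * (u * u) = n * L → 2 * (u' * u') = n' * L →
    fz ((L - 1) * u) * fz ((L - 1) * u') =
      (if n = 4 ∧ n' = 4 then -1 else 1) * fz (2 * (u * u') * L ^ 3) := by
  rcases hL with rfl | rfl <;> rcases hn with rfl | rfl <;> rcases hn' with rfl | rfl <;>
    revert u u' <;> decide

theorem nat_cast5 (n k : ℕ) (hk : k < 5) : n % 5 = k ↔ ((n : ℕ) : ZMod 5) = (k : ZMod 5) := by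
  constructor
  · intro h
    have h1 : ((n : ℕ) : ZMod 5) = ((n % 5 : ℕ) : ZMod 5) := (ZMod.natCast_mod n 5).symm
    rw [h1, h]
  · intro h
    have := (ZMod.natCast_eq_natCast_iff' n k 5).1 h
    rw [this]
    exact Nat.mod_eq_of_lt hk

/-- the product of the orientations of two vectors -/
theorem ori_mul {l n n' : ℕ} (hl : l % 5 = 2 ∨ l % 5 = 3) (hn : n % 5 = 1 ∨ n % 5 = 4)
    (hn' : n' % 5 = 1 ∨ n' % 5 = 4) {v w : V3} (hv : ip v v = (n * l : ℕ))
    (hw : ip w w = (n' * l : ℕ)) :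
    ori l v * ori l w = s5 n n' * o5 (ip v w * l ^ 3) := by
  have hz : ∀ a b : V3, ((ip a b : ℤ) : ZMod 5) = 2 * ((uu a : ZMod 5) * (uu b : ZMod 5)) := by
    intro a b
    have := (cast5 _).1 (ip_uu a b)
    push_cast at this
    linear_combination this
  have e1 := hz v v
  have e2 := hz w w
  rw [hv] at e1
  rw [hw] at e2
  push_cast at e1 e2
  have hL : ((l : ℕ) : ZMod 5) = 2 ∨ ((l : ℕ) : ZMod 5) = 3 := by
    rcases hl with h | h
    · left; exact (nat_cast5 l 2 (by norm_num)).1 h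
    · right; exact (nat_cast5 l 3 (by norm_num)).1 h
  have hN : ((n : ℕ) : ZMod 5) = 1 ∨ ((n : ℕ) : ZMod 5) = 4 := by
    rcases hn with h | h
    · left; simpa using (nat_cast5 n 1 (by norm_num)).1 h
    · right; exact (nat_cast5 n 4 (by norm_num)).1 h
  have hN' : ((n' : ℕ) : ZMod 5) = 1 ∨ ((n' : ℕ) : ZMod 5) = 4 := by
    rcases hn' with h | h
    · left; simpa using (nat_cast5 n' 1 (by norm_num)).1 h
    · right; exact (nat_cast5 n' 4 (by norm_num)).1 h
  have key := ori_key (uu v : ZMod 5) (uu w : ZMod 5) n n' l hL hN hN' e1.symm e2.symm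
  unfold ori
  rw [o5_fz, o5_fz, o5_fz]
  push_cast
  rw [hz v w]
  rw [key]
  congr 1
  unfold s5
  have a1 : (n % 5 = 4 ∧ n' % 5 = 4) ↔ (((n : ℕ) : ZMod 5) = 4 ∧ ((n' : ℕ) : ZMod 5) = 4) :=
    and_congr (nat_cast5 n 4 (by norm_num)) (nat_cast5 n' 4 (by norm_num))
  by_cases h : n % 5 = 4 ∧ n' % 5 = 4
  · rw [if_pos h, if_pos (a1.1 h)]
  · rw [if_neg h, if_neg (fun h' => h (a1.2 h'))]

theorem ori_neg (l : ℕ) (v : V3) : ori l (-v) = - ori l v := by
  unfold ori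
  rw [uu_neg, mul_neg, Pool.Agent.N218.RQ.o5_neg]

theorem ori_s2 (l : ℕ) (i : Fin 4) (v : V3) : ori l (s2 i v) = - ori l v := by
  unfold ori
  rw [uu_s2, mul_neg, Pool.Agent.N218.RQ.o5_neg]

theorem ori_g3 (l : ℕ) (v : V3) : ori l (g3 v) = ori l v := by
  unfold ori
  have h : uu (g3 v) = uu v := by
    simp only [uu, g3, Matrix.cons_val_zero, Matrix.cons_val_one, Matrix.cons_val]
    ring
  rw [h]

/-! ### the sign at `l` -/

theorem lin_s2 (i : Fin 4) (x y : ℤ) (v w : V3) : s2 i (x • v + y • w) = x • s2 i v + y • s2 i w := by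
  fin_cases i <;>
  · funext j
    fin_cases j <;> simp [s2] <;> ring

theorem lin_g3 (x y : ℤ) (v w : V3) : g3 (x • v + y • w) = x • g3 v + y • g3 w := by
  funext j
  fin_cases j <;> simp [g3] <;> ring

theorem sim_s2 (i : Fin 4) : Sim ip ip 1 (s2 i) where
  iso := by intro v w; rw [ip_s2]; ring
  lin := lin_s2 i

theorem sim_g3 : Sim ip ip 1 g3 where
  iso := by intro v w; rw [ip_g3]; ring
  lin := lin_g3

/-- the axes of the rotations of order two -/
def ax (i : Fin 4) : V3 :=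
  match i with
  | 0 => ![0, 1, -1]
  | 1 => ![0, 0, 1]
  | 2 => ![0, 1, 0]
  | 3 => ![0, 1, -1]

theorem q_s2 (i : Fin 4) (v : V3) : ip v (s2 i v) =
    10 * (ax i 0 * v 0 + ax i 1 * v 1 + ax i 2 * v 2) ^ 2 + (-1) * ip v v := by
  fin_cases i <;>
  · simp [ip, s2, ax]
    ring

section sgn

variable {l : ℕ} [hp : Fact l.Prime] (h2 : l ≠ 2) (h10 : ¬ (l : ℤ) ∣ 10)

include h2 h10

theorem psi_neg {v : V3} (hv : Iso ip l v) (h4 : l % 4 = 3) : psi ip l (-v) = - psi ip l v := by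
  have h1 := psi_smul frm h2 h10 (k := -1) (by simp) hv
  have e : (-1 : ℤ) • v = -v := by simp
  rw [e, jacobiSym.at_neg_one (Nat.odd_iff.2 (by omega)), ZMod.χ₄_nat_three_mod_four h4] at h1
  rw [h1]
  ring

omit hp h2 h10 in
theorem iso_neg {v : V3} (hv : Iso ip l v) : Iso ip l (-v) := by
  obtain ⟨h, i, hi⟩ := hv
  refine ⟨?_, i, ?_⟩
  · rwa [ip_neg]
  · rw [Pi.neg_apply, dvd_neg]
    exact hi

theorem psi_g3 {v : V3} (hv : Iso ip l v) : psi ip l (g3 v) = psi ip l v := by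
  have hf : ((1 : ℤ) : ZMod l) ≠ 0 := by simp
  have i1 := sim_iso frm frm sim_g3 h2 h10 hf hv
  have i2 := sim_iso frm frm sim_g3 h2 h10 hf i1
  have e1 := psi_sim frm h2 h10 sim_g3 hf hv
  have e2 := psi_sim frm h2 h10 sim_g3 hf i1
  have e3 := psi_sim frm h2 h10 sim_g3 hf i2
  rw [g3_g3] at e3
  have c1 := sim_const frm sim_g3 h2 h10 hf hv i1
  have c2 := sim_const frm sim_g3 h2 h10 hf i1 i2
  have q := sig_sq frm h2 h10 hv i1
  rw [g3_g3] at c2
  rw [← c2, ← c1, e2, ← c1, e1] at e3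
  have hs := psi_sq frm h2 h10 hv
  rw [e1]
  have h3 : psi ip l v = sig ip l v (g3 v) * psi ip l v * (sig ip l v (g3 v) * sig ip l v (g3 v)) := by
    linear_combination e3
  rw [q, mul_one] at h3
  exact h3.symm

theorem psi_s2 (i : Fin 4) {v : V3} (hv : Iso ip l v) (h5 : jacobiSym 5 l = -1) :
    psi ip l (s2 i v) = - psi ip l v := by
  have hf : ((1 : ℤ) : ZMod l) ≠ 0 := by simp
  have hk : ((10 : ℤ) : ZMod l) ≠ 0 := by
    rw [Ne, ← dvd_cast]
    exact h10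
  have hax : ∃ j, ((ax i j : ℤ) : ZMod l) ≠ 0 := by
    fin_cases i
    · exact ⟨1, by simp [ax]⟩
    · exact ⟨2, by simp [ax]⟩
    · exact ⟨1, by simp [ax]⟩
    · exact ⟨1, by simp [ax]⟩
  rw [psi_sim frm h2 h10 (sim_s2 i) hf hv,
    sim_sign frm (sim_s2 i) h2 h10 hf (l := ax i) (k := 10) (m := -1) hax hk (q_s2 i) hv]
  have e : quadraticChar (ZMod l) (2 * ((10 : ℤ) : ZMod l)) = quadraticChar (ZMod l) (5 : ℤ) := by
    have h20 := c2 (p := l) h2
    have h5' : ((5 : ℤ) : ZMod l) ≠ 0 := by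
      intro h
      apply hk
      have : ((10 : ℤ) : ZMod l) = 2 * ((5 : ℤ) : ZMod l) := by push_cast; ring
      rw [this, h, mul_zero]
    refine qc_eq (s := 10) ?_ (mul_ne_zero h20 hk) h5'
    push_cast
    ring
  rw [e, ← jac_eq, h5]
  ring

end sgn

end Pool.Agent.N969.BJ15
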